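import Pool.Agent.Helper24.FL.Forms

/-!
# The perturbations
-/

namespace Pool.Agent.Helper24.FL

variable {G : Type} [Group G] {m R : ℕ} (D : Data G m R) {X : Type}

/-- The projection. -/
def K (l : Fin 3) : G →* G := (D.κ (l + 1)).comp (D.κ (l + 2))

theorem K_self (l : Fin 3) (g e : G) (he : e ∈ D.E l) : K D l (g * e) = K D l g * e := by
  unfold K
  rw [map_mul]
  congr 1
  show D.κ (l + 1) (D.κ (l + 2) e) = e
  rw [D.fix (l + 2) l (by fin_cases l <;> decide) e he,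
    D.fix (l + 1) l (by fin_cases l <;> decide) e he]

theorem fin3_cov : ∀ l l' : Fin 3, l' ≠ l → l' = l + 1 ∨ l' = l + 2 := by decide

theorem K_other (l l' : Fin 3) (hl : l' ≠ l) (g e : G) (he : e ∈ D.E l') :
    K D l (g * e) = K D l g := by
  unfold K
  rw [map_mul]
  have h : l' = l + 1 ∨ l' = l + 2 := fin3_cov l l' hl
  have : D.κ (l + 1) (D.κ (l + 2) e) = 1 := by
    rcases h with rfl | rfl
    · rw [D.fix (l + 2) (l + 1) (by fin_cases l <;> decide) e he, D.kill (l + 1) e he]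
    · rw [D.kill (l + 2) e he, map_one]
  show _ * D.κ (l + 1) (D.κ (l + 2) e) = _
  rw [this, mul_one]

theorem out_mem (l : Fin 3) (x : G) : (Quotient.out (x : G ⧸ D.E l) : G)⁻¹ * x ∈ D.E l := by
  rw [← QuotientGroup.eq, QuotientGroup.out_eq']

theorem exists_theta (hm : 0 < m) : ∃ θ : Fin 3 → G → ℕ, (∀ l g, θ l g < m) ∧
    (∀ l l' g e, l' ≠ l → e ∈ D.E l' → θ l (g * e) = θ l g) ∧
    ∀ l g e, e ∈ D.E l → e ≠ 1 → θ l (g * e) ≠ θ l g := by
  classical
  have hfin : ∀ l, Finite (D.E l) := fun l =>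
    Nat.finite_of_card_ne_zero (by rw [D.card_E l]; omega)
  have idx : ∀ l, D.E l ≃ Fin m := fun l => Finite.equivFinOfCardEq (D.card_E l)
  refine ⟨fun l g => idx l ⟨_, out_mem D l (K D l g)⟩, fun l g => (idx l _).2, ?_, ?_⟩
  · intro l l' g e hl he
    simp only [K_other D l l' hl g e he]
  · intro l g e he h1 hcon
    have h2 := (idx l).injective (Fin.ext hcon)
    have h3 := congrArg Subtype.val h2
    simp only at h3
    rw [K_self D l g e he] at h3
    have h4 : ((K D l g * e : G) : G ⧸ D.E l) = (K D l g : G ⧸ D.E l) := by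
      rw [QuotientGroup.eq]
      simpa using he
    rw [h4, mul_right_inj] at h3
    exact h1 (by simpa using h3)

/-- The perturbations. -/
theorem exists_perturb (hm : 0 < m) (hR : 1 ≤ R) (hmR : 2 * m ≤ 2 ^ (R - 1))
    (hdec : St_DECAY) : ∃ (ω0 : Pt D X → ℝ) (ωp : G → Pt D X → ℝ),
      (∀ g, 0 < S ω0 g) ∧ (∀ g g' l, g ≠ g' → (g : G ⧸ D.E l) = g' → S ω0 g ≠ S ω0 g') ∧
      (∀ p, S (ωp p) p = 0) ∧ (∀ p g, g ≠ p → 0 < S (ωp p) g) ∧
      (∀ p g g' l, g ≠ p → g' ≠ p → g ≠ g' → (g : G ⧸ D.E l) = g' →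
        SignType.sign (S (ωp p) g - S (ωp p) g') = SignType.sign (S ω0 g - S ω0 g')) := by
  classical
  obtain ⟨θ, hθm, hθo, hθs⟩ := exists_theta D hm
  obtain ⟨η, hη1, hη⟩ := hdec G m R hR D
  set ω0 : Pt D X → ℝ := fun v => match v with
    | ⟨l, .inl c⟩ => (θ (l + 1) (Quotient.out c) : ℝ) + if l = 0 then 1 else 0
    | ⟨_, .inr _⟩ => 0 with hω0
  have hS0 : ∀ g, S ω0 g = ((1 + θ 0 g + θ 1 g + θ 2 g : ℕ) : ℝ) := by
    intro g
    have h1 : ∀ l : Fin 3, ω0 (pos X (eg D g l)) = (θ (l + 1) g : ℝ) + if l = 0 then 1 else 0 := by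
      intro l
      show (θ (l + 1) (Quotient.out (g : G ⧸ D.E l)) : ℝ) + (if l = 0 then 1 else 0) = _
      congr 2
      have h2 : (Quotient.out (g : G ⧸ D.E l) : G) = g * (g⁻¹ * Quotient.out (g : G ⧸ D.E l)) := by
        group
      rw [h2]
      refine hθo (l + 1) l g _ (by fin_cases l <;> decide) ?_
      have h3 := (D.E l).inv_mem (out_mem D l g)
      simpa using h3
    unfold S
    rw [Fin.sum_univ_three, h1, h1, h1]
    simp
    ring
  have hS1 : ∀ g, 1 ≤ S ω0 g := by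
    intro g
    rw [hS0]
    exact_mod_cast (by omega : 1 ≤ 1 + θ 0 g + θ 1 g + θ 2 g)
  have hS2 : ∀ g, S ω0 g < 3 * m := by
    intro g
    rw [hS0]
    have := hθm 0 g
    have := hθm 1 g
    have := hθm 2 g
    exact_mod_cast (by omega : 1 + θ 0 g + θ 1 g + θ 2 g < 3 * m)
  have hdiff : ∀ g g' l, g ≠ g' → (g : G ⧸ D.E l) = g' → 1 ≤ |S ω0 g - S ω0 g'| := by
    intro g g' l hne hl
    have hmem : g⁻¹ * g' ∈ D.E l := QuotientGroup.eq.1 hl
    have hg' : g' = g * (g⁻¹ * g') := by group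
    have h1 : θ l g' ≠ θ l g := by
      rw [hg']
      refine hθs l g _ hmem ?_
      intro hcon
      apply hne
      exact inv_mul_eq_one.1 hcon
    have h2 : ∀ l', l' ≠ l → θ l' g' = θ l' g := by
      intro l' hl'
      rw [hg']
      exact hθo l' l g _ (Ne.symm hl') hmem
    rw [hS0, hS0]
    have h3 : ((1 + θ 0 g + θ 1 g + θ 2 g : ℕ) : ℤ) ≠ ((1 + θ 0 g' + θ 1 g' + θ 2 g' : ℕ) : ℤ) := by
      have hl3 : l = 0 ∨ l = 1 ∨ l = 2 := by fin_cases l <;> simp
      rcases hl3 with rfl | rfl | rfl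
      · have := h2 1 (by decide)
        have := h2 2 (by decide)
        omega
      · have := h2 0 (by decide)
        have := h2 2 (by decide)
        omega
      · have := h2 0 (by decide)
        have := h2 1 (by decide)
        omega
    have h4 : (1 : ℤ) ≤ |((1 + θ 0 g + θ 1 g + θ 2 g : ℕ) : ℤ) - ((1 + θ 0 g' + θ 1 g' + θ 2 g' : ℕ) : ℤ)| :=
      Int.one_le_abs (sub_ne_zero.2 h3)
    exact_mod_cast h4
  set ηp : G → Pt D X → ℝ := fun p v => match v with
    | ⟨l, .inl c⟩ => η l (p⁻¹ • c)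
    | ⟨_, .inr _⟩ => 0 with hηp
  have hSη : ∀ p g, S (ηp p) g = ∑ l, η l ((p⁻¹ * g : G) : G ⧸ D.E l) := fun p g => rfl
  have hSωp : ∀ p g, S (ω0 - S ω0 p • ηp p) g = S ω0 g - S ω0 p * S (ηp p) g := by
    intro p g
    unfold S
    rw [Finset.mul_sum, ← Finset.sum_sub_distrib]
    rfl
  have hsmall : ∀ p g, g ≠ p → |S ω0 p * S (ηp p) g| < 1 / 2 := by
    intro p g hg
    rw [hSη, abs_mul, abs_of_pos (by linarith [hS1 p])]
    have h1 := hη (p⁻¹ * g) (fun h => hg (inv_mul_eq_one.1 h).symm)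
    have h2 : (0 : ℝ) < (1 / 2) ^ (R - 1) := by positivity
    have h3 : (2 : ℝ) * m ≤ 2 ^ (R - 1) := by exact_mod_cast hmR
    have h4 : (2 : ℝ) * m * (1 / 2) ^ (R - 1) ≤ 1 := by
      calc (2 : ℝ) * m * (1 / 2) ^ (R - 1) ≤ 2 ^ (R - 1) * (1 / 2) ^ (R - 1) :=
            mul_le_mul_of_nonneg_right h3 h2.le
        _ = 1 := by rw [← mul_pow]; norm_num
    calc S ω0 p * |∑ l, η l ((p⁻¹ * g : G) : G ⧸ D.E l)|
        ≤ S ω0 p * (1 / 3 * (1 / 2) ^ (R - 1)) :=
          mul_le_mul_of_nonneg_left h1 (by linarith [hS1 p])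
      _ < (3 * m) * (1 / 3 * (1 / 2) ^ (R - 1)) :=
          mul_lt_mul_of_pos_right (hS2 p) (by positivity)
      _ = (2 * m * (1 / 2) ^ (R - 1)) / 2 := by ring
      _ ≤ 1 / 2 := by linarith
  refine ⟨ω0, fun p => ω0 - S ω0 p • ηp p, fun g => by linarith [hS1 g], ?_, ?_, ?_, ?_⟩
  · intro g g' l hne hl h
    have := hdiff g g' l hne hl
    rw [h, sub_self, abs_zero] at this
    linarith
  · intro p
    rw [hSωp, hSη, inv_mul_cancel, hη1, mul_one, sub_self]
  · intro p g hg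
    rw [hSωp]
    have h1 := abs_lt.1 (hsmall p g hg)
    linarith [hS1 g, h1.2]
  · intro p g g' l hg hg' hne hl
    rw [hSωp, hSωp]
    have h1 := abs_lt.1 (hsmall p g hg)
    have h2 := abs_lt.1 (hsmall p g' hg')
    have h3 := hdiff g g' l hne hl
    rcases le_abs'.1 h3 with h4 | h4
    · rw [sign_neg (by linarith [h1.1, h2.2]), sign_neg (by linarith)]
    · rw [sign_pos (by linarith [h1.2, h2.1]), sign_pos (by linarith)]

end Pool.Agent.Helper24.FL
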