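import Pool.Agent.Helper24.FL.Poly
import Pool.Agent.Helper24.FL.Perturb

/-!
# The adversary
-/

open MvPolynomial Filter Topology

namespace Pool.Agent.Helper24.FL

variable {G : Type} [Group G] {m R : ℕ} {D : Data G m R} {X : Type}
variable [∀ l, Fintype (G ⧸ D.E l)] [Fintype X]

theorem S_smul (t : ℝ) (ω : Pt D X → ℝ) (g : G) : S (t • ω) g = t * S ω g := by
  unfold S
  rw [Finset.mul_sum]
  rfl

theorem S_add (ω ω' : Pt D X → ℝ) (g : G) : S (ω + ω') g = S ω g + S ω' g := by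
  unfold S
  rw [← Finset.sum_add_distrib]
  rfl

/-- Sums of potentials over triangles vanish. -/
theorem S_Φ (f : Ix D X → ℝ) (g : G) : S (Φ (D := D) f) g = 0 := by
  have hen : ∀ i l : Fin 3, i ≠ l → en D i (eg D g l) = (g : G ⧸ H D i) := by
    intro i l hil
    unfold en
    rw [QuotientGroup.eq]
    have h1 := out_mem D l g
    refine (?_ : D.E l ≤ H D i) h1
    unfold H
    rcases fin3_cov i l (Ne.symm hil) with rfl | rfl
    · exact le_sup_left
    · exact le_sup_right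
  have h1 : ∀ l : Fin 3, Φ (D := D) f (pos X (eg D g l)) =
      f (.inl ⟨l + 1, (g : G ⧸ H D (l + 1))⟩) - f (.inl ⟨l + 2, (g : G ⧸ H D (l + 2))⟩) := by
    intro l
    show f (.inl ⟨l + 1, en D (l + 1) (eg D g l)⟩) - f (.inl ⟨l + 2, en D (l + 2) (eg D g l)⟩) = _
    rw [hen (l + 1) l (by fin_cases l <;> decide), hen (l + 2) l (by fin_cases l <;> decide)]
  unfold S
  rw [Fin.sum_univ_three, h1, h1, h1]
  have e1 : f (.inl ⟨(0 : Fin 3) + 1, (g : G ⧸ H D (0 + 1))⟩) =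
    f (.inl ⟨(1 : Fin 3), (g : G ⧸ H D 1)⟩) := rfl
  have e2 : f (.inl ⟨(0 : Fin 3) + 2, (g : G ⧸ H D (0 + 2))⟩) =
    f (.inl ⟨(2 : Fin 3), (g : G ⧸ H D 2)⟩) := rfl
  have e3 : f (.inl ⟨(1 : Fin 3) + 1, (g : G ⧸ H D (1 + 1))⟩) =
    f (.inl ⟨(2 : Fin 3), (g : G ⧸ H D 2)⟩) := rfl
  have e4 : f (.inl ⟨(1 : Fin 3) + 2, (g : G ⧸ H D (1 + 2))⟩) =
    f (.inl ⟨(0 : Fin 3), (g : G ⧸ H D 0)⟩) := rfl
  have e5 : f (.inl ⟨(2 : Fin 3) + 1, (g : G ⧸ H D (2 + 1))⟩) =
    f (.inl ⟨(0 : Fin 3), (g : G ⧸ H D 0)⟩) := rfl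
  have e6 : f (.inl ⟨(2 : Fin 3) + 2, (g : G ⧸ H D (2 + 2))⟩) =
    f (.inl ⟨(1 : Fin 3), (g : G ⧸ H D 1)⟩) := rfl
  rw [e1, e2, e3, e4, e5, e6]
  ring

/-- The properties of the perturbations. -/
structure Pert (ω0 : Pt D X → ℝ) (ωp : G → Pt D X → ℝ) : Prop where
  pos0 : ∀ g, 0 < S ω0 g
  ne0 : ∀ g g' l, g ≠ g' → (g : G ⧸ D.E l) = g' → S ω0 g ≠ S ω0 g'
  zero : ∀ p, S (ωp p) p = 0
  posp : ∀ p g, g ≠ p → 0 < S (ωp p) g
  signp : ∀ p g g' l, g ≠ p → g' ≠ p → g ≠ g' → (g : G ⧸ D.E l) = g' →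
        SignType.sign (S (ωp p) g - S (ωp p) g') = SignType.sign (S ω0 g - S ω0 g')

/-- One polynomial. -/
theorem outcome [Finite G] {ω0 : Pt D X → ℝ} {ωp : G → Pt D X → ℝ} (hω : Pert ω0 ωp)
    (q : MvPolynomial (Pt D X) ℝ) (hq : q ≠ 0) (h4 : Four (fun v : Pt D X => v.1) q.vars) :
    ∃ gen : MvPolynomial (Ix D X) ℝ, gen ≠ 0 ∧ ∃ T : Finset G, T.card ≤ 2 ∧
      (q.vars.card ≤ 2 → T = ∅) ∧ ∀ f, eval f gen ≠ 0 → ∀ᶠ ε in 𝓝[>] (0 : ℝ),
        SignType.sign (eval (Φ f + ε • ω0) q) ≠ 0 ∧ ∀ p, p ∉ T →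
          SignType.sign (eval (Φ f + ε • ωp p) q) = SignType.sign (eval (Φ f + ε • ω0) q) := by
  classical
  obtain ⟨gen, hgen, h | ⟨h3, a, ⟨k, hk, ⟨g, hg⟩ | ⟨g, g', hgg, ⟨l, hl⟩, hsq⟩⟩, h⟩⟩ :=
    generic q hq h4
  · refine ⟨gen, hgen, ∅, by simp, fun _ => rfl, fun f hf => ?_⟩
    obtain ⟨σ, hσ, hall⟩ := h f hf
    have h1 := hall ω0
    have h2 : ∀ᶠ ε in 𝓝[>] (0 : ℝ), ∀ p, SignType.sign (eval (Φ f + ε • ωp p) q) = σ :=
      Filter.eventually_all.2 fun p => hall (ωp p)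
    filter_upwards [h1, h2] with ε e1 e2
    exact ⟨by rw [e1]; exact hσ, fun p _ => by rw [e1, e2 p]⟩
  · refine ⟨gen, hgen, {g}, by simp, fun h5 => by omega, fun f hf => ?_⟩
    obtain ⟨σ, k', hσ, hall⟩ := h f hf
    have n0 : ∑ w, a w * ω0 w ≠ 0 := by
      rw [hg]
      exact mul_ne_zero hk (hω.pos0 g).ne'
    have np : ∀ p, p ∉ ({g} : Finset G) → SignType.sign (∑ w, a w * ωp p w) =
        SignType.sign (∑ w, a w * ω0 w) := by
      intro p hp
      have hgp : g ≠ p := fun h => hp (by simp [h])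
      rw [hg, hg, sign_mul, sign_mul, sign_pos (hω.pos0 g), sign_pos (hω.posp p g hgp)]
    have h1 := hall ω0 n0
    have h2 : ∀ᶠ ε in 𝓝[>] (0 : ℝ), ∀ p, p ∉ ({g} : Finset G) →
        SignType.sign (eval (Φ f + ε • ωp p) q) =
          SignType.sign (∑ w, a w * ωp p w) ^ k' * σ := by
      rw [Filter.eventually_all]
      intro p
      by_cases hp : p ∈ ({g} : Finset G)
      · exact Eventually.of_forall fun ε h => absurd hp h
      · have n1 : ∑ w, a w * ωp p w ≠ 0 := by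
          intro hcon
          have := np p hp
          rw [hcon, sign_zero] at this
          exact n0 (sign_eq_zero_iff.1 this.symm)
        filter_upwards [hall (ωp p) n1] with ε hε _ using hε
    filter_upwards [h1, h2] with ε e1 e2
    refine ⟨?_, fun p hp => ?_⟩
    · rw [e1]
      exact mul_ne_zero (pow_ne_zero _ (by simpa [sign_eq_zero_iff] using n0)) hσ
    · rw [e1, e2 p hp, np p hp]
  · refine ⟨gen, hgen, {g, g'}, Finset.card_le_two, fun h5 => by omega, fun f hf => ?_⟩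
    obtain ⟨σ, k', hσ, hall⟩ := h f hf
    have n0 : ∑ w, a w * ω0 w ≠ 0 := by
      rw [hsq]
      exact mul_ne_zero hk (sub_ne_zero.2 (hω.ne0 g g' l hgg hl))
    have np : ∀ p, p ∉ ({g, g'} : Finset G) → SignType.sign (∑ w, a w * ωp p w) =
        SignType.sign (∑ w, a w * ω0 w) := by
      intro p hp
      have hgp : g ≠ p := fun h => hp (by simp [h])
      have hgp' : g' ≠ p := fun h => hp (by simp [h])
      rw [hsq, hsq, sign_mul, sign_mul, hω.signp p g g' l hgp hgp' hgg hl]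
    have h1 := hall ω0 n0
    have h2 : ∀ᶠ ε in 𝓝[>] (0 : ℝ), ∀ p, p ∉ ({g, g'} : Finset G) →
        SignType.sign (eval (Φ f + ε • ωp p) q) =
          SignType.sign (∑ w, a w * ωp p w) ^ k' * σ := by
      rw [Filter.eventually_all]
      intro p
      by_cases hp : p ∈ ({g, g'} : Finset G)
      · exact Eventually.of_forall fun ε h => absurd hp h
      · have n1 : ∑ w, a w * ωp p w ≠ 0 := by
          intro hcon
          have := np p hp
          rw [hcon, sign_zero] at this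
          exact n0 (sign_eq_zero_iff.1 this.symm)
        filter_upwards [hall (ωp p) n1] with ε hε _ using hε
    filter_upwards [h1, h2] with ε e1 e2
    refine ⟨?_, fun p hp => ?_⟩
    · rw [e1]
      exact mul_ne_zero (pow_ne_zero _ (by simpa [sign_eq_zero_iff] using n0)) hσ
    · rw [e1, e2 p hp, np p hp]

/-- Three different positions with sum zero. -/
def Solved {P A : Type} [AddCommMonoid A] (x : P → A) : Prop :=
  ∃ u v w : P, u ≠ v ∧ u ≠ w ∧ v ≠ w ∧ x u + x v + x w = 0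

/-- The adversary, for finitely many polynomials. -/
theorem adversary [Finite G] {ω0 : Pt D X → ℝ} {ωp : G → Pt D X → ℝ} (hω : Pert ω0 ωp)
    (J : Finset (MvPolynomial (Pt D X) ℝ)) (hJ : ∀ q ∈ J, Four (fun v : Pt D X => v.1) q.vars) :
    ∃ (x : Pt D X → ℝ) (y : G → Pt D X → ℝ) (T : MvPolynomial (Pt D X) ℝ → Finset G),
      (Function.Injective x ∧ ¬ Solved x) ∧ (∀ p, Function.Injective (y p) ∧ Solved (y p)) ∧
      ∀ q ∈ J, (T q).card ≤ 2 ∧ (q.vars.card ≤ 2 → T q = ∅) ∧ ∀ p, p ∉ T q →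
        SignType.sign (eval x q) = SignType.sign (eval (y p) q) := by
  classical
  -- the enlarged family
  set J1 : Finset (MvPolynomial (Pt D X) ℝ) :=
    (Finset.univ.filter fun u : Pt D X × Pt D X => u.1 ≠ u.2).image
      fun u => MvPolynomial.X u.1 - MvPolynomial.X u.2 with hJ1
  set J2 : Finset (MvPolynomial (Pt D X) ℝ) :=
    (Finset.univ.filter fun u : Pt D X × Pt D X × Pt D X =>
      u.1 ≠ u.2.1 ∧ u.1 ≠ u.2.2 ∧ u.2.1 ≠ u.2.2).image
      fun u => MvPolynomial.X u.1 + MvPolynomial.X u.2.1 + MvPolynomial.X u.2.2 with hJ2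
  have four_of : ∀ (q : MvPolynomial (Pt D X) ℝ) (U : Finset (Pt D X)), q.vars ⊆ U → U.card ≤ 3 →
      Four (fun v : Pt D X => v.1) q.vars := by
    intro q U hU hc
    have h1 := (Finset.card_le_card hU).trans hc
    exact ⟨by omega, fun l => (Finset.card_le_card (Finset.filter_subset _ _)).trans h1⟩
  have v1 : ∀ u v : Pt D X, (MvPolynomial.X u - MvPolynomial.X v : MvPolynomial (Pt D X) ℝ).vars ⊆
      {u, v} := by
    intro u v
    refine (MvPolynomial.vars_sub_subset _).trans ?_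
    rw [MvPolynomial.vars_X, MvPolynomial.vars_X]
    intro z hz
    simpa using hz
  have v2 : ∀ u v w : Pt D X, (MvPolynomial.X u + MvPolynomial.X v + MvPolynomial.X w :
      MvPolynomial (Pt D X) ℝ).vars ⊆ {u, v, w} := by
    intro u v w
    refine (MvPolynomial.vars_add_subset _ _).trans ?_
    refine Finset.union_subset ((MvPolynomial.vars_add_subset _ _).trans ?_) ?_
    · rw [MvPolynomial.vars_X, MvPolynomial.vars_X]
      intro z hz
      simp only [Finset.mem_union, Finset.mem_singleton, Finset.mem_insert] at hz ⊢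
      tauto
    · rw [MvPolynomial.vars_X]
      intro z hz
      simp only [Finset.mem_singleton, Finset.mem_insert] at hz ⊢
      tauto
  have n1 : ∀ u v : Pt D X, u ≠ v →
      (MvPolynomial.X u - MvPolynomial.X v : MvPolynomial (Pt D X) ℝ) ≠ 0 := by
    intro u v huv h
    have := congrArg (eval (Pi.single u 1)) h
    simp [Pi.single_eq_of_ne (Ne.symm huv)] at this
  have n2 : ∀ u v w : Pt D X, u ≠ v → u ≠ w →
      (MvPolynomial.X u + MvPolynomial.X v + MvPolynomial.X w : MvPolynomial (Pt D X) ℝ) ≠ 0 := by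
    intro u v w huv huw h
    have := congrArg (eval (Pi.single u 1)) h
    simp [Pi.single_eq_of_ne (Ne.symm huv), Pi.single_eq_of_ne (Ne.symm huw)] at this
  set J' := J ∪ J1 ∪ J2 with hJ'
  have hall : ∀ q : MvPolynomial (Pt D X) ℝ, ∃ (gen : MvPolynomial (Ix D X) ℝ) (T : Finset G),
      gen ≠ 0 ∧ T.card ≤ 2 ∧ (q.vars.card ≤ 2 → T = ∅) ∧
      (q ∈ J' → q ≠ 0 → ∀ f, eval f gen ≠ 0 → ∀ᶠ ε in 𝓝[>] (0 : ℝ),
        SignType.sign (eval (Φ f + ε • ω0) q) ≠ 0 ∧ ∀ p, p ∉ T →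
          SignType.sign (eval (Φ f + ε • ωp p) q) = SignType.sign (eval (Φ f + ε • ω0) q)) := by
    intro q
    by_cases hq : q ∈ J' ∧ q ≠ 0
    · have h4 : Four (fun v : Pt D X => v.1) q.vars := by
        have h1 := hq.1
        rw [hJ', Finset.mem_union, Finset.mem_union] at h1
        rcases h1 with (h1 | h1) | h1
        · exact hJ q h1
        · obtain ⟨u, -, rfl⟩ := Finset.mem_image.1 h1
          exact four_of _ _ (v1 _ _) (Finset.card_le_two.trans (by norm_num))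
        · obtain ⟨u, -, rfl⟩ := Finset.mem_image.1 h1
          exact four_of _ _ (v2 _ _ _) Finset.card_le_three
      obtain ⟨gen, h1, T, h2, h3, h5⟩ := outcome hω q hq.2 h4
      exact ⟨gen, T, h1, h2, h3, fun _ _ => h5⟩
    · exact ⟨1, ∅, one_ne_zero, by simp, fun _ => rfl, fun h1 h2 => absurd ⟨h1, h2⟩ hq⟩
  choose gen T hgen hT2 hTe hgood using hall
  have hprod : ∏ q ∈ J', gen q ≠ 0 := Finset.prod_ne_zero_iff.2 fun q _ => hgen q
  obtain ⟨f, hf⟩ := exists_eval_ne _ hprod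
  rw [map_prod] at hf
  have hf' : ∀ q ∈ J', eval f (gen q) ≠ 0 := fun q hq h => hf (Finset.prod_eq_zero hq h)
  have hev : ∀ᶠ ε in 𝓝[>] (0 : ℝ), ∀ q ∈ J', q ≠ 0 →
      SignType.sign (eval (Φ f + ε • ω0) q) ≠ 0 ∧ ∀ p, p ∉ T q →
        SignType.sign (eval (Φ f + ε • ωp p) q) = SignType.sign (eval (Φ f + ε • ω0) q) := by
    rw [Filter.eventually_all_finset]
    intro q hq
    by_cases hq0 : q = 0
    · exact Eventually.of_forall fun ε h => absurd hq0 h
    · filter_upwards [hgood q hq hq0 f (hf' q hq)] with ε hε _ using hε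
  obtain ⟨ε, hε⟩ := hev.exists
  refine ⟨Φ f + ε • ω0, fun p => Φ f + ε • ωp p, T, ⟨?_, ?_⟩, fun p => ⟨?_, ?_⟩, ?_⟩
  · intro u v huv
    by_contra hne
    have hmem : (MvPolynomial.X u - MvPolynomial.X v : MvPolynomial (Pt D X) ℝ) ∈ J' := by
      rw [hJ', Finset.mem_union, Finset.mem_union]
      exact Or.inl (Or.inr (Finset.mem_image.2 ⟨(u, v), by simpa using hne, rfl⟩))
    have h1 := (hε _ hmem (n1 u v hne)).1
    apply h1
    rw [RingHom.map_sub, eval_X, eval_X, huv, sub_self, sign_zero]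
  · rintro ⟨u, v, w, h1, h2, h3, h4⟩
    have hmem : (MvPolynomial.X u + MvPolynomial.X v + MvPolynomial.X w :
        MvPolynomial (Pt D X) ℝ) ∈ J' := by
      rw [hJ', Finset.mem_union, Finset.mem_union]
      exact Or.inr (Finset.mem_image.2 ⟨(u, v, w), by simp [h1, h2, h3], rfl⟩)
    have h5 := (hε _ hmem (n2 u v w h1 h2)).1
    apply h5
    have h6 : eval (Φ f + ε • ω0) (MvPolynomial.X u + MvPolynomial.X v + MvPolynomial.X w) =
        (Φ f + ε • ω0) u + (Φ f + ε • ω0) v + (Φ f + ε • ω0) w := by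
      rw [RingHom.map_add, RingHom.map_add, eval_X, eval_X, eval_X]
    rw [h6, h4, sign_zero]
  · intro u v huv
    by_contra hne
    have hmem : (MvPolynomial.X u - MvPolynomial.X v : MvPolynomial (Pt D X) ℝ) ∈ J' := by
      rw [hJ', Finset.mem_union, Finset.mem_union]
      exact Or.inl (Or.inr (Finset.mem_image.2 ⟨(u, v), by simpa using hne, rfl⟩))
    have h1 := hε _ hmem (n1 u v hne)
    have h2 : T (MvPolynomial.X u - MvPolynomial.X v) = ∅ :=
      hTe _ ((Finset.card_le_card (v1 u v)).trans Finset.card_le_two)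
    have h3 := h1.2 p (by rw [h2]; exact Finset.notMem_empty _)
    apply h1.1
    have huv' : (Φ f + ε • ωp p) u = (Φ f + ε • ωp p) v := huv
    rw [← h3, RingHom.map_sub, eval_X, eval_X, huv', sub_self, sign_zero]
  · refine ⟨pos X (eg D p 0), pos X (eg D p 1), pos X (eg D p 2), ?_, ?_, ?_, ?_⟩
    · intro h
      exact absurd (congrArg Sigma.fst h) (by decide : (0 : Fin 3) ≠ 1)
    · intro h
      exact absurd (congrArg Sigma.fst h) (by decide : (0 : Fin 3) ≠ 2)
    · intro h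
      exact absurd (congrArg Sigma.fst h) (by decide : (1 : Fin 3) ≠ 2)
    · have h1 : S (Φ f + ε • ωp p) p = 0 := by
        rw [S_add, S_smul, S_Φ, hω.zero, mul_zero, add_zero]
      unfold S at h1
      rwa [Fin.sum_univ_three] at h1
  · intro q hq
    refine ⟨hT2 q, hTe q, fun p hp => ?_⟩
    by_cases hq0 : q = 0
    · rw [hq0, RingHom.map_zero, RingHom.map_zero]
    · have hmem : q ∈ J' := by
        rw [hJ', Finset.mem_union, Finset.mem_union]
        exact Or.inl (Or.inl hq)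
      exact ((hε q hmem hq0).2 p hp).symm

end Pool.Agent.Helper24.FL
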