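import Pool.Agent.Helper24.FL.Grp

/-!
# The order of the group
-/

open Polynomial

namespace Pool.Agent.Helper24.FL

variable (p : ℕ) [Fact p.Prime] (r : ℕ)

theorem monicX : ((X : (ZMod p)[X]) ^ r).Monic := monic_X_pow r

theorem finrank_A : Module.finrank (ZMod p) (A p r) = r := by
  have h := (AdjoinRoot.powerBasis' (monicX p r)).finrank
  rw [h, AdjoinRoot.powerBasis'_dim, natDegree_X_pow]

instance : Module.Finite (ZMod p) (A p r) :=
  (AdjoinRoot.powerBasis' (monicX p r)).finite

instance : Finite (A p r) := Module.finite_of_finite (ZMod p)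

theorem card_A : Nat.card (A p r) = p ^ r := by
  rw [Module.natCard_eq_pow_finrank (K := ZMod p), finrank_A, Nat.card_zmod]

theorem nontrivial_A (hr : 1 ≤ r) : Nontrivial (A p r) := by
  rw [← Finite.one_lt_card_iff_nontrivial, card_A]
  exact Nat.one_lt_pow (by omega) (Fact.out : p.Prime).one_lt

instance : Finite (Mat p r) := by
  unfold Mat
  infer_instance

theorem card_Mat : Nat.card (Mat p r) = p ^ (16 * r) := by
  have h : Nat.card (Mat p r) = Nat.card ((Fin 2 ⊕ Fin 2) → (Fin 2 ⊕ Fin 2) → A p r) := rfl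
  rw [h, Nat.card_fun, Nat.card_fun, card_A]
  simp only [Nat.card_eq_fintype_card, Fintype.card_sum, Fintype.card_fin]
  rw [← pow_mul, ← pow_mul]
  congr 1
  ring

instance : Finite (Mat p r)ˣ := Finite.of_injective Units.val Units.val_injective

instance : Finite (𝒢 p r) := by
  unfold 𝒢
  infer_instance

theorem card_𝒢 : Nat.card (𝒢 p r) ≤ p ^ (512 * r) := by
  have h : Nat.card (𝒢 p r) = Nat.card ((Finset (Fin 3) × Option (Fin 3)) → (Mat p r)ˣ) := rfl
  rw [h, Nat.card_fun]
  have h1 : Nat.card (Mat p r)ˣ ≤ p ^ (16 * r) := by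
    rw [← card_Mat]
    exact Nat.card_le_card_of_injective Units.val Units.val_injective
  have h2 : Nat.card (Finset (Fin 3) × Option (Fin 3)) = 32 := by
    simp [Nat.card_eq_fintype_card]
  rw [h2]
  calc Nat.card (Mat p r)ˣ ^ 32 ≤ (p ^ (16 * r)) ^ 32 := Nat.pow_le_pow_left h1 32
    _ = p ^ (512 * r) := by rw [← pow_mul]; congr 1; ring

theorem ee_injective (hr : 1 ≤ r) (j : Fin 3) : Function.Injective (ee p r j) := by
  have := nontrivial_A p r hr
  intro c c' h
  have h1 := congrFun h (∅, some j)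
  have h2 : (unip (M p r (some j) j) (M_sq p r (some j) j) c.toAdd : (Mat p r)ˣ) =
      unip (M p r (some j) j) (M_sq p r (some j) j) c'.toAdd := h1
  have h3 := congrArg (fun u : (Mat p r)ˣ => u.val (.inl 0) (.inr 0)) h2
  simp only [unip, M, if_true, Matrix.add_apply, Matrix.smul_apply, Matrix.fromBlocks_apply₁₂,
    Matrix.one_apply, smul_eq_mul, mul_one] at h3
  have h4 : algebraMap (ZMod p) (A p r) c.toAdd = algebraMap (ZMod p) (A p r) c'.toAdd := by
    simpa using h3
  have h5 := (algebraMap (ZMod p) (A p r)).injective h4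
  exact Multiplicative.toAdd.injective h5

theorem card_EE (hr : 1 ≤ r) (j : Fin 3) : Nat.card (EE p r j) = p := by
  unfold EE
  rw [← Nat.card_congr (MonoidHom.ofInjective (ee_injective p r hr j)).toEquiv]
  rw [Nat.card_congr Multiplicative.toAdd, Nat.card_zmod]

end Pool.Agent.Helper24.FL
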