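import Mathlib

/-!
# Group data for the lower bound for four linear tests

`E 0, E 1, E 2` are three subgroups of the finite group `G`, each with `m` elements.
-/

namespace Pool.Agent.Helper24.FL

/-- `Red E k l g`: `g` is the product of a reduced word of length `k` whose last letter is in `E l`. -/
inductive Red {G : Type} [Group G] (E : Fin 3 → Subgroup G) : ℕ → Fin 3 → G → Prop
  | one (l : Fin 3) (e : G) (he : e ∈ E l) (h1 : e ≠ 1) : Red E 1 l e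
  | mul (k : ℕ) (l : Fin 3) (g : G) (l' : Fin 3) (e : G) (hg : Red E k l g) (hl : l' ≠ l)
      (he : e ∈ E l') (h1 : e ≠ 1) : Red E (k + 1) l' (g * e)

/-- The group data. -/
structure Data (G : Type) [Group G] (m R : ℕ) where
  /-- three subgroups -/
  E : Fin 3 → Subgroup G
  card_E : ∀ i, Nat.card (E i) = m
  /-- three endomorphisms -/
  κ : Fin 3 → (G →* G)
  kill : ∀ i, ∀ e ∈ E i, κ i e = 1
  fix : ∀ i j, j ≠ i → ∀ e ∈ E j, κ i e = e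
  cent : ∀ i, ∀ e ∈ E i, e ≠ 1 → ∀ h ∈ E (i + 1) ⊔ E (i + 2), e * h = h * e → h = 1
  red_ne : ∀ k l g, k ≤ R → Red E k l g → g ≠ 1
  red_unique : ∀ k k' l l' g, k ≤ R → k' ≤ R → Red E k l g → Red E k' l' g → k = k' ∧ l = l'

/-- Part A: the group. -/
def St_GROUP : Prop := ∀ (p : ℕ) [Fact p.Prime] (R : ℕ), 2 ≤ R →
  ∃ (G : Type) (_ : Group G) (_ : Finite G), Nonempty (Data G p R) ∧
    Nat.card G ≤ p ^ (512 * (R + 1))

/-- Part P: copies. -/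
def St_COPIES : Prop := ∀ (G : Type) [Group G] (m R r : ℕ) [NeZero r], Data G m R →
  Nonempty (Data (G × Multiplicative (ZMod r)) m R)

/-- Part C: an almost delta function. -/
def St_DECAY : Prop := ∀ (G : Type) [Group G] (m R : ℕ), 1 ≤ R → ∀ D : Data G m R,
  ∃ η : (l : Fin 3) → G ⧸ D.E l → ℝ, (∑ l, η l ((1 : G) : G ⧸ D.E l) = 1) ∧
    ∀ g : G, g ≠ 1 → |∑ l, η l (g : G ⧸ D.E l)| ≤ (1 / 3) * (1 / 2) ^ (R - 1)

/-- Part B1: triangles are filled. -/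
def St_TRIANGLE : Prop := ∀ (G : Type) [Group G] (m R : ℕ) (D : Data G m R) (g0 g1 g2 : G),
  g0⁻¹ * g1 ∈ D.E 0 ⊔ D.E 1 → g1⁻¹ * g2 ∈ D.E 1 ⊔ D.E 2 → g2⁻¹ * g0 ∈ D.E 2 ⊔ D.E 0 →
  ∃ g : G, g⁻¹ * g0 ∈ D.E 0 ∧ g⁻¹ * g1 ∈ D.E 1 ∧ g⁻¹ * g2 ∈ D.E 2

/-- Part B2: intersections of the vertex groups. -/
def St_INTER : Prop := ∀ (G : Type) [Group G] (m R : ℕ) (D : Data G m R) (i : Fin 3) (g : G),
  g ∈ D.E i ⊔ D.E (i + 1) → g ∈ D.E i ⊔ D.E (i + 2) → g ∈ D.E i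

/-- Part B3: four cycles have a chord. `a, a'` are edges of the third `l`, `b, b'` of the third
`l'`, and `l''` is the other third. -/
def St_SQUARE : Prop := ∀ (G : Type) [Group G] (m R : ℕ) (D : Data G m R) (l l' l'' : Fin 3),
  l ≠ l' → l ≠ l'' → l' ≠ l'' → ∀ a a' b b' : G,
  a⁻¹ * b ∈ D.E l ⊔ D.E l' → b⁻¹ * b' ∈ D.E l' ⊔ D.E l'' → b'⁻¹ * a' ∈ D.E l ⊔ D.E l' →
  a'⁻¹ * a ∈ D.E l ⊔ D.E l'' → a⁻¹ * a' ∉ D.E l →
  ∃ g g' : G, g⁻¹ * a ∈ D.E l ∧ g⁻¹ * b ∈ D.E l' ∧ g'⁻¹ * a' ∈ D.E l ∧ g'⁻¹ * b' ∈ D.E l' ∧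
    g⁻¹ * g' ∈ D.E l''

end Pool.Agent.Helper24.FL
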