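import Pool.Agent.Helper24.FL.Sparse
import Pool.Agent.Helper48.FL.SQUARE

/-!
# Linear forms which vanish on all potentials
-/

namespace Pool.Agent.Helper24.FL

variable {G : Type} [Group G] {m R : ℕ} (D : Data G m R) (X : Type)

/-- The vertex groups. -/
def H (i : Fin 3) : Subgroup G := D.E (i + 1) ⊔ D.E (i + 2)

/-- The edges. -/
abbrev Ed : Type := Σ l : Fin 3, G ⧸ D.E l

/-- The positions. -/
abbrev Pt : Type := Σ l : Fin 3, (G ⧸ D.E l) ⊕ X

/-- The end point of type `i` of an edge. -/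
noncomputable def en (i : Fin 3) (e : Ed D) : G ⧸ H D i := ((Quotient.out e.2 : G) : G ⧸ H D i)

/-- The index set of the potentials. -/
abbrev Ix : Type := (Σ i : Fin 3, G ⧸ H D i) ⊕ (Fin 3 × X)

/-- The numbers given by the potentials. -/
noncomputable def Φ {D : Data G m R} {X : Type} (f : Ix D X → ℝ) : Pt D X → ℝ
  | ⟨l, .inl c⟩ => f (.inl ⟨l + 1, en D (l + 1) ⟨l, c⟩⟩) - f (.inl ⟨l + 2, en D (l + 2) ⟨l, c⟩⟩)
  | ⟨l, .inr z⟩ => f (.inr (l, z))

/-- The position of an edge. -/
def pos {D : Data G m R} (X : Type) (e : Ed D) : Pt D X := ⟨e.1, .inl e.2⟩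

/-- The edge of `g` in the third `l`. -/
def eg (D : Data G m R) (g : G) (l : Fin 3) : Ed D := ⟨l, (g : G ⧸ D.E l)⟩

/-- The sum over the triangle of `g`. -/
def S {D : Data G m R} {X : Type} (ω : Pt D X → ℝ) (g : G) : ℝ := ∑ l, ω (pos X (eg D g l))

variable [∀ l, Fintype (G ⧸ D.E l)] [Fintype X]

/-- Special forms. -/
def Special {D : Data G m R} {X : Type} [∀ l, Fintype (G ⧸ D.E l)] [Fintype X]
    (a : Pt D X → ℝ) : Prop :=
  ∃ k : ℝ, k ≠ 0 ∧
    ((∃ g : G, ∀ ω : Pt D X → ℝ, ∑ v, a v * ω v = k * S ω g) ∨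
      ∃ g g' : G, g ≠ g' ∧ (∃ l, (g : G ⧸ D.E l) = g') ∧
        ∀ ω : Pt D X → ℝ, ∑ v, a v * ω v = k * (S ω g - S ω g'))

/-- The sign of an end point. -/
noncomputable def sg (l i : Fin 3) : ℝ := (if l + 1 = i then 1 else 0) - if l + 2 = i then 1 else 0

theorem sg_self (l : Fin 3) : sg l l = 0 := by
  fin_cases l <;> simp [sg]

theorem sg_ne {l i : Fin 3} (h : i ≠ l) : sg l i ≠ 0 := by
  fin_cases l <;> fin_cases i <;> simp_all [sg]

theorem sg_neg {l l' l'' : Fin 3} (h1 : l ≠ l') (h2 : l ≠ l'') (h3 : l' ≠ l'') :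
    sg l l'' = - sg l' l'' := by
  fin_cases l <;> fin_cases l' <;> fin_cases l'' <;> simp_all [sg]

omit [∀ l, Fintype (G ⧸ D.E l)] in
theorem vtx_eq_iff (i j : Fin 3) (e e0 : Ed D) :
    ((⟨j, en D j e⟩ : Σ i : Fin 3, G ⧸ H D i) = ⟨i, en D i e0⟩) ↔ j = i ∧ en D i e = en D i e0 := by
  constructor
  · intro h
    obtain ⟨h1, h2⟩ := Sigma.mk.inj_iff.1 h
    subst h1
    exact ⟨rfl, eq_of_heq h2⟩
  · rintro ⟨rfl, h⟩
    rw [h]

/-- The equivalence of the positions. -/
def ptEquiv : Pt D X ≃ (Ed D) ⊕ (Fin 3 × X) where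
  toFun := fun v => match v with
    | ⟨l, .inl c⟩ => .inl ⟨l, c⟩
    | ⟨l, .inr z⟩ => .inr (l, z)
  invFun := fun q => match q with
    | .inl e => pos X e
    | .inr q => ⟨q.1, .inr q.2⟩
  left_inv := by
    rintro ⟨l, c | z⟩ <;> rfl
  right_inv := by
    rintro (e | q) <;> rfl

theorem sum_pt (F : Pt D X → ℝ) :
    ∑ v, F v = ∑ e : Ed D, F (pos X e) + ∑ q : Fin 3 × X, F ⟨q.1, .inr q.2⟩ := by
  rw [← (ptEquiv D X).symm.sum_comp F, Fintype.sum_sum_type]
  rfl

variable {D X}

/-- Coefficients of extra numbers vanish. -/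
theorem extra_zero (a : Pt D X → ℝ) (h : ∀ f, ∑ v, a v * Φ f v = 0) (l : Fin 3) (z : X) :
    a ⟨l, .inr z⟩ = 0 := by
  classical
  have h1 := h (fun q => if q = .inr (l, z) then 1 else 0)
  rw [sum_pt] at h1
  have e1 : ∑ e : Ed D, a (pos X e) * Φ (fun q => if q = .inr (l, z) then 1 else 0) (pos X e) = 0 := by
    refine Finset.sum_eq_zero fun e _ => ?_
    simp [pos, Φ]
  have e2 : ∑ q : Fin 3 × X, a ⟨q.1, .inr q.2⟩ *
      Φ (D := D) (fun q => if q = .inr (l, z) then 1 else 0) ⟨q.1, .inr q.2⟩ =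
      a ⟨l, .inr z⟩ := by
    rw [Finset.sum_eq_single (l, z)]
    · simp [Φ]
    · intro q _ hq
      have : ¬ ((q.1, q.2) = (l, z)) := hq
      simp only [Φ, Sum.inr.injEq, this, if_false, mul_zero]
    · intro hq
      exact absurd (Finset.mem_univ _) hq
  rw [e1, e2, zero_add] at h1
  exact h1

open Classical in
/-- The equation at a vertex. -/
theorem balance (a : Pt D X → ℝ) (h : ∀ f, ∑ v, a v * Φ f v = 0) (i : Fin 3) (e0 : Ed D) :
    ∑ e : Ed D, a (pos X e) * (if en D i e = en D i e0 then sg e.1 i else 0) = 0 := by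
  have h1 := h (fun q => if q = .inl ⟨i, en D i e0⟩ then 1 else 0)
  rw [sum_pt] at h1
  have e2 : ∑ q : Fin 3 × X, a ⟨q.1, .inr q.2⟩ *
      Φ (D := D) (fun q => if q = .inl ⟨i, en D i e0⟩ then 1 else 0) ⟨q.1, .inr q.2⟩ = 0 := by
    refine Finset.sum_eq_zero fun e _ => ?_
    simp [Φ]
  rw [e2, add_zero] at h1
  refine Eq.trans ?_ h1
  refine Finset.sum_congr rfl fun e _ => ?_
  congr 1
  obtain ⟨l, c⟩ := e
  show _ = (if (Sum.inl ⟨l + 1, en D (l + 1) ⟨l, c⟩⟩ : Ix D X) = .inl ⟨i, en D i e0⟩ then (1 : ℝ) else 0) -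
    (if (Sum.inl ⟨l + 2, en D (l + 2) ⟨l, c⟩⟩ : Ix D X) = .inl ⟨i, en D i e0⟩ then (1 : ℝ) else 0)
  simp only [Sum.inl.injEq, vtx_eq_iff]
  by_cases h2 : en D i ⟨l, c⟩ = en D i e0
  · simp only [h2, and_true, if_true, sg]
  · simp only [h2, and_false, if_false, sub_zero]

omit [Fintype X] [∀ l, Fintype (G ⧸ D.E l)] in
theorem H_succ (l : Fin 3) : H D (l + 1) = D.E l ⊔ D.E (l + 2) := by
  have h1 : l + 1 + 1 = l + 2 := by rw [add_assoc]; rfl
  have h2 : l + 1 + 2 = l := by rw [add_assoc]; simp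
  unfold H
  rw [h1, h2, sup_comm]

omit [Fintype X] [∀ l, Fintype (G ⧸ D.E l)] in
theorem H_succ2 (l : Fin 3) : H D (l + 2) = D.E l ⊔ D.E (l + 1) := by
  have h1 : l + 2 + 1 = l := by rw [add_assoc]; simp
  have h2 : l + 2 + 2 = l + 1 := by rw [add_assoc]; rfl
  unfold H
  rw [h1, h2]

omit [Fintype X] [∀ l, Fintype (G ⧸ D.E l)] in
/-- `H l''` is generated by the two others. -/
theorem H_eq {l l' l'' : Fin 3} (h12 : l ≠ l') (h13 : l ≠ l'') (h23 : l' ≠ l'') :
    H D l'' = D.E l ⊔ D.E l' := by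
  unfold H
  fin_cases l <;> fin_cases l' <;> fin_cases l'' <;> simp at h12 h13 h23 <;>
    first | rfl | exact sup_comm _ _

omit [Fintype X] [∀ l, Fintype (G ⧸ D.E l)] in
/-- Edges are determined by the end points. -/
theorem edge_inj (e f : Ed D) (h1 : e.1 = f.1) (h2 : ∀ i, i ≠ e.1 → en D i e = en D i f) :
    e = f := by
  obtain ⟨l, c⟩ := e
  obtain ⟨l', c'⟩ := f
  simp only at h1
  subst h1
  simp only at h2
  have e1 := h2 (l + 1) (by fin_cases l <;> decide)
  have e2 := h2 (l + 2) (by fin_cases l <;> decide)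
  unfold en at e1 e2
  rw [QuotientGroup.eq, H_succ] at e1
  rw [QuotientGroup.eq, H_succ2] at e2
  have e3 := Pool.Agent.Helper48.FL.inter G m R D l _ e2 e1
  rw [← QuotientGroup.eq, QuotientGroup.out_eq', QuotientGroup.out_eq'] at e3
  exact Sigma.ext rfl (heq_of_eq e3)

omit [Fintype X] [∀ l, Fintype (G ⧸ D.E l)] in
/-- The edge is the edge of `g`. -/
theorem eq_eg {e : Ed D} {l : Fin 3} (he : e.1 = l) {g : G} (h : g⁻¹ * (Quotient.out e.2 : G) ∈ D.E l) :
    e = eg D g l := by
  obtain ⟨l', c⟩ := e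
  simp only at he
  subst he
  refine Sigma.ext rfl (heq_of_eq ?_)
  show c = (g : G ⧸ D.E l')
  rw [← QuotientGroup.eq, QuotientGroup.out_eq'] at h
  exact h.symm

/-- The sum of a form. -/
theorem sum_form (a : Pt D X → ℝ) (h : ∀ f : Ix D X → ℝ, ∑ v : Pt D X, a v * Φ f v = 0)
    (T : Finset (Ed D))
    (hT : ∀ e, e ∉ T → a (pos X e) = 0) (ω : Pt D X → ℝ) :
    ∑ v, a v * ω v = ∑ e ∈ T, a (pos X e) * ω (pos X e) := by
  rw [sum_pt]
  have e2 : ∑ q : Fin 3 × X, a ⟨q.1, .inr q.2⟩ * ω ⟨q.1, .inr q.2⟩ = 0 := by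
    refine Finset.sum_eq_zero fun q _ => ?_
    rw [extra_zero a h, zero_mul]
  rw [e2, add_zero]
  symm
  refine Finset.sum_subset (Finset.subset_univ _) fun e _ he => ?_
  rw [hT e he, zero_mul]

open Classical in
/-- The equation at a vertex. -/
theorem balance' (a : Pt D X → ℝ) (h : ∀ f, ∑ v, a v * Φ f v = 0) (T : Finset (Ed D))
    (hT : ∀ e, e ∉ T → a (pos X e) = 0) (i : Fin 3) (e0 : Ed D) :
    ∑ e ∈ T, a (pos X e) * (if en D i e = en D i e0 then sg e.1 i else 0) = 0 := by
  refine Eq.trans ?_ (balance a h i e0)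
  refine Finset.sum_subset (Finset.subset_univ _) fun e _ he => ?_
  rw [hT e he, zero_mul]

theorem fin3_third : ∀ l l' l'' i : Fin 3, l ≠ l' → l ≠ l'' → l' ≠ l'' → i ≠ l →
    i = l' ∨ i = l'' := by decide

theorem fin3_univ : ∀ l l' l'' : Fin 3, l ≠ l' → l ≠ l'' → l' ≠ l'' →
    (Finset.univ : Finset (Fin 3)) = {l, l', l''} := by decide

theorem sum3 (F : Fin 3 → ℝ) {l l' l'' : Fin 3} (h12 : l ≠ l') (h13 : l ≠ l'') (h23 : l' ≠ l'') :
    ∑ i, F i = F l + F l' + F l'' := by
  rw [fin3_univ l l' l'' h12 h13 h23, Finset.sum_insert (by simp [h12, h13]),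
    Finset.sum_insert (by simp [h23]), Finset.sum_singleton]
  ring

set_option maxHeartbeats 4000000 in
/-- Sparse forms which vanish on all potentials are special. -/
theorem special_of_ann (a : Pt D X → ℝ) (ha : a ≠ 0)
    (h4 : (Finset.univ.filter fun v => a v ≠ 0).card ≤ 4)
    (h3 : ∀ l, (Finset.univ.filter fun v : Pt D X => a v ≠ 0 ∧ v.1 = l).card ≤ 3)
    (h : ∀ f, ∑ v, a v * Φ f v = 0) : Special a := by
  classical
  set T : Finset (Ed D) := Finset.univ.filter fun e => a (pos X e) ≠ 0 with hT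
  have hT0 : ∀ e, e ∉ T → a (pos X e) = 0 := by
    intro e he
    by_contra hcon
    exact he (Finset.mem_filter.2 ⟨Finset.mem_univ _, hcon⟩)
  have hT1 : ∀ e ∈ T, a (pos X e) ≠ 0 := fun e he => (Finset.mem_filter.1 he).2
  have posinj : Function.Injective (pos (D := D) X) := by
    rintro ⟨l, c⟩ ⟨l', c'⟩ hh
    unfold pos at hh
    simp only [Sigma.mk.injEq] at hh
    obtain ⟨rfl, h2⟩ := hh
    have := eq_of_heq h2
    simp only [Sum.inl.injEq] at this
    rw [this]
  have hne : T.Nonempty := by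
    by_contra hcon
    rw [Finset.not_nonempty_iff_eq_empty] at hcon
    apply ha
    funext v
    obtain ⟨l, c | z⟩ := v
    · have := hT0 ⟨l, c⟩ (by rw [hcon]; exact Finset.notMem_empty _)
      exact this
    · exact extra_zero a h l z
  have c4 : T.card ≤ 4 := by
    refine le_trans ?_ h4
    rw [← Finset.card_image_of_injective T posinj]
    refine Finset.card_le_card fun v hv => ?_
    obtain ⟨e, he, rfl⟩ := Finset.mem_image.1 hv
    exact Finset.mem_filter.2 ⟨Finset.mem_univ _, hT1 e he⟩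
  have c3 : ∀ l, (T.filter fun e => e.1 = l).card ≤ 3 := by
    intro l
    refine le_trans ?_ (h3 l)
    rw [← Finset.card_image_of_injective _ posinj]
    refine Finset.card_le_card fun v hv => ?_
    obtain ⟨e, he, rfl⟩ := Finset.mem_image.1 hv
    rw [Finset.mem_filter] at he
    exact Finset.mem_filter.2 ⟨Finset.mem_univ _, hT1 e he.1, he.2⟩
  have hdeg : ∀ e ∈ T, ∀ i, i ≠ e.1 → ∃ f ∈ T, f ≠ e ∧ i ≠ f.1 ∧ en D i f = en D i e := by
    intro e he i hi
    by_contra hcon
    push Not at hcon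
    have h1 := balance' a h T hT0 i e
    rw [Finset.sum_eq_single e] at h1
    · simp only [if_true] at h1
      exact mul_ne_zero (hT1 e he) (sg_ne hi) h1
    · intro f hf hfe
      by_cases h5 : i = f.1
      · split_ifs
        · rw [h5, sg_self, mul_zero]
        · rw [mul_zero]
      · rw [if_neg (hcon f hf hfe h5), mul_zero]
    · intro h5
      exact absurd he h5
  rcases sparse_sets (W := fun i => G ⧸ H D i) (fun e : Ed D => e.1) (en D) T hne c4 c3
    (fun e _ f _ h1 h2 => edge_inj e f h1 h2) hdeg with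
    ⟨e, het, hTe, hen⟩ | ⟨l, l', l'', h12, h13, h23, b, b', c, c', hb, hb', hc, hc', hbb, hcc,
      hTe, s1, s2, s3, s4⟩
  · -- triangle
    have f1 : (Quotient.out (e 0).2 : G)⁻¹ * (Quotient.out (e 1).2 : G) ∈ D.E 0 ⊔ D.E 1 := by
      have := hen 2 0 1 (by decide) (by decide)
      unfold en at this
      rw [QuotientGroup.eq] at this
      exact this
    have f2 : (Quotient.out (e 1).2 : G)⁻¹ * (Quotient.out (e 2).2 : G) ∈ D.E 1 ⊔ D.E 2 := by
      have := hen 0 1 2 (by decide) (by decide)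
      unfold en at this
      rw [QuotientGroup.eq] at this
      exact this
    have f3 : (Quotient.out (e 2).2 : G)⁻¹ * (Quotient.out (e 0).2 : G) ∈ D.E 2 ⊔ D.E 0 := by
      have := hen 1 2 0 (by decide) (by decide)
      unfold en at this
      rw [QuotientGroup.eq] at this
      exact this
    obtain ⟨g, g0, g1, g2⟩ := Pool.Agent.Helper48.FL.triangle G m R D _ _ _ f1 f2 f3
    have E0 : e 0 = eg D g 0 := eq_eg (het 0) g0
    have E1 : e 1 = eg D g 1 := eq_eg (het 1) g1
    have E2 : e 2 = eg D g 2 := eq_eg (het 2) g2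
    have ee : ∀ l, e l = eg D g l := by
      intro l
      fin_cases l
      · exact E0
      · exact E1
      · exact E2
    have einj : Function.Injective e := by
      intro x y hxy
      rw [← het x, ← het y, hxy]
    have bal : ∀ i : Fin 3, a (pos X (eg D g (i + 1))) = a (pos X (eg D g (i + 2))) := by
      intro i
      have h1 := balance' a h T hT0 i (e (i + 1))
      rw [hTe, Finset.sum_image (fun x _ y _ hxy => einj hxy)] at h1
      have h2 : ∀ l, a (pos X (e l)) * (if en D i (e l) = en D i (e (i + 1)) then sg (e l).1 i else 0) =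
          a (pos X (e l)) * sg l i := by
        intro l
        rw [het l]
        by_cases hl : l = i
        · rw [hl, sg_self]
          simp
        · rw [if_pos (hen i l (i + 1) hl (by fin_cases i <;> decide))]
      simp only [h2] at h1
      rw [Fin.sum_univ_three] at h1
      rw [← ee, ← ee]
      fin_cases i <;> simp [sg] at h1 ⊢ <;> linarith
    refine ⟨a (pos X (eg D g 0)), ?_, Or.inl ⟨g, fun ω => ?_⟩⟩
    · apply hT1
      rw [← ee, hTe]
      exact Finset.mem_image_of_mem _ (Finset.mem_univ _)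
    · rw [sum_form a h T hT0 ω, hTe, Finset.sum_image (fun x _ y _ hxy => einj hxy)]
      have b0 := bal 0
      have b1 := bal 1
      have b2 : a (pos X (eg D g 2)) = a (pos X (eg D g 0)) := b1
      have b0' : a (pos X (eg D g 1)) = a (pos X (eg D g 2)) := b0
      unfold S
      rw [Fin.sum_univ_three, Fin.sum_univ_three, E0, E1, E2, b0', b2]
      ring
  · -- square
    have hH1 : H D l'' = D.E l ⊔ D.E l' := H_eq h12 h13 h23
    have hH2 : H D l = D.E l' ⊔ D.E l'' := H_eq h23 (Ne.symm h12) (Ne.symm h13)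
    have hH3 : H D l' = D.E l ⊔ D.E l'' := H_eq h13 h12 (Ne.symm h23)
    have f1 : (Quotient.out b.2 : G)⁻¹ * (Quotient.out c.2 : G) ∈ D.E l ⊔ D.E l' := by
      unfold en at s3
      rw [QuotientGroup.eq, hH1] at s3
      exact s3
    have f2 : (Quotient.out c.2 : G)⁻¹ * (Quotient.out c'.2 : G) ∈ D.E l' ⊔ D.E l'' := by
      unfold en at s2
      rw [QuotientGroup.eq, hH2] at s2
      exact s2
    have f3 : (Quotient.out c'.2 : G)⁻¹ * (Quotient.out b'.2 : G) ∈ D.E l ⊔ D.E l' := by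
      have s4' := s4.symm
      unfold en at s4'
      rw [QuotientGroup.eq, hH1] at s4'
      exact s4'
    have f4 : (Quotient.out b'.2 : G)⁻¹ * (Quotient.out b.2 : G) ∈ D.E l ⊔ D.E l'' := by
      have s1' := s1.symm
      unfold en at s1'
      rw [QuotientGroup.eq, hH3] at s1'
      exact s1'
    have f5 : (Quotient.out b.2 : G)⁻¹ * (Quotient.out b'.2 : G) ∉ D.E l := by
      intro hcon
      apply hbb
      obtain ⟨lb, cb⟩ := b
      obtain ⟨lb', cb'⟩ := b'
      simp only at hb hb'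
      subst hb
      subst hb'
      rw [← QuotientGroup.eq, QuotientGroup.out_eq', QuotientGroup.out_eq'] at hcon
      exact Sigma.ext rfl (heq_of_eq hcon)
    obtain ⟨g, g', g1, g2, g3, g4, g5⟩ := Pool.Agent.Helper48.FL.square G m R D l l' l'' h12 h13 h23
      _ _ _ _ f1 f2 f3 f4 f5
    have E1 : b = eg D g l := eq_eg hb g1
    have E2 : c = eg D g l' := eq_eg hc g2
    have E3 : b' = eg D g' l := eq_eg hb' g3
    have E4 : c' = eg D g' l' := eq_eg hc' g4
    have E5 : eg D g l'' = eg D g' l'' := by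
      refine Sigma.ext rfl (heq_of_eq ?_)
      exact QuotientGroup.eq.2 g5
    have nbc : ∀ x y : Ed D, x.1 = l → y.1 = l' → x ≠ y := fun x y hx hy hxy =>
      h12 (by rw [← hx, hxy, hy])
    have hsum : ∀ F : Ed D → ℝ, ∑ x ∈ T, F x = F b + F b' + F c + F c' := by
      intro F
      rw [hTe, Finset.sum_insert (by simp [hbb, nbc b c hb hc, nbc b c' hb hc']),
        Finset.sum_insert (by simp [nbc b' c hb' hc, nbc b' c' hb' hc']),
        Finset.sum_insert (by simp [hcc]), Finset.sum_singleton]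
      ring
    have k1 : a (pos X b') = - a (pos X b) := by
      have h1 := balance' a h T hT0 l' b
      rw [hsum, if_pos rfl, if_pos s1.symm, hb, hb', hc, hc', sg_self] at h1
      simp only [ite_self, mul_zero, add_zero] at h1
      have h2 : (a (pos X b) + a (pos X b')) * sg l l' = 0 := by linarith
      rcases mul_eq_zero.1 h2 with h3 | h3
      · linarith
      · exact absurd h3 (sg_ne (Ne.symm h12))
    have k2 : a (pos X c') = - a (pos X c) := by
      have h1 := balance' a h T hT0 l c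
      rw [hsum, hb, hb', hc, hc', sg_self, if_pos rfl, if_pos s2.symm] at h1
      simp only [ite_self, mul_zero, zero_add] at h1
      have h2 : (a (pos X c) + a (pos X c')) * sg l' l = 0 := by linarith
      rcases mul_eq_zero.1 h2 with h3 | h3
      · linarith
      · exact absurd h3 (sg_ne h12)
    have ne1 : en D l'' b' ≠ en D l'' b := by
      intro hcon
      apply hbb
      refine edge_inj b b' (by rw [hb, hb']) fun i hi => ?_
      rw [hb] at hi
      have hcov : i = l' ∨ i = l'' := fin3_third l l' l'' i h12 h13 h23 hi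
      rcases hcov with rfl | rfl
      · exact s1
      · exact hcon.symm
    have k3 : a (pos X c) = a (pos X b) := by
      have h1 := balance' a h T hT0 l'' b
      rw [hsum, if_pos rfl, if_neg ne1, if_pos s3.symm,
        if_neg (fun hcon => ne1 (s4.trans hcon)), hb, hc, sg_neg h12 h13 h23] at h1
      have h2 : (a (pos X c) - a (pos X b)) * sg l' l'' = 0 := by linarith
      rcases mul_eq_zero.1 h2 with h3 | h3
      · linarith
      · exact absurd h3 (sg_ne (Ne.symm h23))
    refine ⟨a (pos X b), ?_, Or.inr ⟨g, g', ?_, ⟨l'', QuotientGroup.eq.2 g5⟩, fun ω => ?_⟩⟩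
    · apply hT1
      rw [hTe]
      exact Finset.mem_insert_self _ _
    · rintro rfl
      exact hbb (E1.trans E3.symm)
    · rw [sum_form a h T hT0 ω, hsum, k1, k2, k3, E1, E2, E3, E4]
      have hS : ∀ g : G, S ω g = ω (pos X (eg D g l)) + ω (pos X (eg D g l')) +
          ω (pos X (eg D g l'')) := by
        intro g
        exact sum3 _ h12 h13 h23
      rw [hS g, hS g', E5]
      ring

end Pool.Agent.Helper24.FL
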