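import Pool.Agent.Helper24.FL.Forms

/-!
# Decomposition of the perturbations
-/

open MvPolynomial

namespace Pool.Agent.Helper24.FL

variable {G : Type} [Group G] {m R : ℕ} {D : Data G m R} {X : Type}

/-- At most four positions, not all in the same third. -/
def Four {P : Type} (th : P → Fin 3) (S : Finset P) : Prop :=
  S.card ≤ 4 ∧ ∀ l, (S.filter fun v => th v = l).card ≤ 3

theorem Four.mono {P : Type} {th : P → Fin 3} {S T : Finset P} (h : Four th T) (hS : S ⊆ T) :
    Four th S :=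
  ⟨(Finset.card_le_card hS).trans h.1, fun l =>
    (Finset.card_le_card (Finset.filter_subset_filter _ hS)).trans (h.2 l)⟩

theorem sum_thirds {P : Type} (th : P → Fin 3) (S : Finset P) :
    ∑ l, (S.filter fun v => th v = l).card = S.card := by
  classical
  rw [Finset.card_eq_sum_card_fiberwise (f := th) (t := Finset.univ) (fun _ _ => Finset.mem_univ _)]

theorem Φ_add (f f' : Ix D X → ℝ) : Φ (D := D) (X := X) (f + f') = Φ f + Φ f' := by
  funext v
  obtain ⟨l, c | z⟩ := v
  · simp only [Φ, Pi.add_apply]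
    ring
  · rfl

theorem Φ_smul (t : ℝ) (f : Ix D X → ℝ) : Φ (D := D) (X := X) (t • f) = t • Φ f := by
  funext v
  obtain ⟨l, c | z⟩ := v
  · simp only [Φ, Pi.smul_apply, smul_eq_mul]
    ring
  · rfl

theorem Φ_zero : Φ (D := D) (X := X) 0 = 0 := by
  have := Φ_smul (D := D) (X := X) 0 0
  simpa using this

variable [∀ l, Fintype (G ⧸ D.E l)] [Fintype X]

/-- Annihilators. -/
def Ann (T : Finset (Pt D X)) (a : Pt D X → ℝ) : Prop :=
  a ≠ 0 ∧ (∀ v, v ∉ T → a v = 0) ∧ ∀ f : Ix D X → ℝ, ∑ v : Pt D X, a v * Φ f v = 0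

/-- All values can be attained. -/
def Full (T : Finset (Pt D X)) : Prop :=
  ∀ ω : Pt D X → ℝ, ∃ f : Ix D X → ℝ, ∀ v ∈ T, Φ f v = ω v

theorem full_or_ann (T : Finset (Pt D X)) : Full T ∨ ∃ a, Ann T a := by
  classical
  by_cases hfull : Full T
  · exact Or.inl hfull
  right
  let V : Submodule ℝ (Pt D X → ℝ) :=
    { carrier := {ω | ∃ f : Ix D X → ℝ, ∀ v ∈ T, Φ f v = ω v}
      add_mem' := by
        rintro ω ω' ⟨f, hf⟩ ⟨f', hf'⟩
        refine ⟨f + f', fun v hv => ?_⟩
        rw [Φ_add, Pi.add_apply, Pi.add_apply, hf v hv, hf' v hv]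
      zero_mem' := ⟨0, fun v _ => by rw [Φ_zero]⟩
      smul_mem' := by
        rintro t ω ⟨f, hf⟩
        refine ⟨t • f, fun v hv => ?_⟩
        rw [Φ_smul, Pi.smul_apply, Pi.smul_apply, hf v hv] }
  have hV : V < ⊤ := by
    rw [lt_top_iff_ne_top]
    intro h
    apply hfull
    intro ω
    have : ω ∈ V := by rw [h]; trivial
    exact this
  obtain ⟨F, hF, hle⟩ := Submodule.exists_le_ker_of_lt_top V hV
  have hsum : ∀ ω : Pt D X → ℝ, F ω = ∑ v, F (Pi.single v 1) * ω v := by
    intro ω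
    conv_lhs => rw [← Finset.univ_sum_single ω]
    rw [map_sum]
    refine Finset.sum_congr rfl fun v _ => ?_
    have : (Pi.single v (ω v) : Pt D X → ℝ) = ω v • Pi.single v (1 : ℝ) := by
      rw [← Pi.single_smul', smul_eq_mul, mul_one]
    rw [this, map_smul, smul_eq_mul, mul_comm]
  refine ⟨fun v => F (Pi.single v 1), ?_, ?_, ?_⟩
  · intro h
    apply hF
    apply LinearMap.ext
    intro ω
    rw [hsum ω]
    refine Finset.sum_eq_zero fun v _ => ?_
    have : F (Pi.single v 1) = 0 := congrFun h v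
    rw [this, zero_mul]
  · intro v hv
    have : (Pi.single v 1 : Pt D X → ℝ) ∈ V := by
      refine ⟨0, fun w hw => ?_⟩
      have hne : w ≠ v := fun h => hv (h ▸ hw)
      rw [Φ_zero, Pi.single_eq_of_ne hne]
      rfl
    exact hle this
  · intro f
    have : Φ f ∈ V := ⟨f, fun _ _ => rfl⟩
    have h1 : F (Φ f) = 0 := hle this
    rw [hsum] at h1
    exact h1

omit [∀ l, Fintype (G ⧸ D.E l)] [Fintype X] in
theorem third_inj {g g' : G} {l l' : Fin 3} (hl : l ≠ l') (h1 : eg D g l = eg D g' l)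
    (h2 : eg D g l' = eg D g' l') : g = g' := by
  unfold eg at h1 h2
  simp only [Sigma.mk.injEq, heq_eq_eq, true_and] at h1 h2
  rw [QuotientGroup.eq] at h1 h2
  have h3 := D.kill l _ h1
  rw [D.fix l l' (Ne.symm hl) _ h2] at h3
  exact inv_mul_eq_one.1 h3

omit [∀ l, Fintype (G ⧸ D.E l)] [Fintype X] in
theorem pos_injective : Function.Injective (pos (D := D) X) := by
  rintro ⟨l, c⟩ ⟨l', c'⟩ hh
  unfold pos at hh
  simp only [Sigma.mk.injEq] at hh
  obtain ⟨rfl, h2⟩ := hh
  have := eq_of_heq h2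
  simp only [Sum.inl.injEq] at this
  rw [this]

open Classical in
omit [∀ l, Fintype (G ⧸ D.E l)] [Fintype X] in
theorem S_single (g : G) (v : Pt D X) :
    S (Pi.single v 1) g = if ∃ l, pos X (eg D g l) = v then 1 else 0 := by
  unfold S
  split_ifs with h
  · obtain ⟨l, rfl⟩ := h
    rw [Finset.sum_eq_single l]
    · exact Pi.single_eq_same _ _
    · intro l' _ hl'
      apply Pi.single_eq_of_ne
      intro h
      have := congrArg Sigma.fst (pos_injective h)
      exact hl' this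
    · intro h
      exact absurd (Finset.mem_univ _) h
  · push Not at h
    exact Finset.sum_eq_zero fun l _ => Pi.single_eq_of_ne (h l) _

open Classical in
theorem sum_single (a : Pt D X → ℝ) (v : Pt D X) : ∑ w, a w * (Pi.single v 1 : Pt D X → ℝ) w = a v := by
  rw [Finset.sum_eq_single v]
  · rw [Pi.single_eq_same, mul_one]
  · intro w _ hw
    rw [Pi.single_eq_of_ne hw, mul_zero]
  · intro h
    exact absurd (Finset.mem_univ _) h

/-- The support of a special form of the first type. -/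
theorem special_tri {a : Pt D X → ℝ} {k : ℝ} (hk : k ≠ 0) {g : G}
    (h : ∀ ω : Pt D X → ℝ, ∑ v, a v * ω v = k * S ω g) (l : Fin 3) : a (pos X (eg D g l)) ≠ 0 := by
  classical
  have h1 := h (Pi.single (pos X (eg D g l)) 1)
  rw [sum_single, S_single, if_pos ⟨l, rfl⟩, mul_one] at h1
  rwa [h1]

/-- The support of a special form of the second type. -/
theorem special_sq {a : Pt D X → ℝ} {k : ℝ} (hk : k ≠ 0) {g g' : G} (hg : g ≠ g') {l'' : Fin 3}
    (hl : (g : G ⧸ D.E l'') = g')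
    (h : ∀ ω : Pt D X → ℝ, ∑ v, a v * ω v = k * (S ω g - S ω g')) (l : Fin 3) (hll : l ≠ l'') :
    a (pos X (eg D g l)) ≠ 0 ∧ a (pos X (eg D g' l)) ≠ 0 ∧ pos X (eg D g l) ≠ pos X (eg D g' l) := by
  classical
  have he : eg D g l'' = eg D g' l'' := Sigma.ext rfl (heq_of_eq hl)
  have hne : pos X (eg D g l) ≠ pos X (eg D g' l) := by
    intro hcon
    exact hg (third_inj hll (pos_injective hcon) he)
  have hn1 : ¬ ∃ l', pos X (eg D g' l') = pos X (eg D g l) := by
    rintro ⟨l', hl'⟩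
    have h1 := congrArg Sigma.fst (pos_injective hl')
    have h2 : l' = l := h1
    subst h2
    exact hne hl'.symm
  have hn2 : ¬ ∃ l', pos X (eg D g l') = pos X (eg D g' l) := by
    rintro ⟨l', hl'⟩
    have h1 := congrArg Sigma.fst (pos_injective hl')
    have h2 : l' = l := h1
    subst h2
    exact hne hl'
  refine ⟨?_, ?_, hne⟩
  · have h1 := h (Pi.single (pos X (eg D g l)) 1)
    rw [sum_single, S_single, S_single, if_pos ⟨l, rfl⟩, if_neg hn1, sub_zero, mul_one] at h1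
    rwa [h1]
  · have h1 := h (Pi.single (pos X (eg D g' l)) 1)
    rw [sum_single, S_single, S_single, if_neg hn2, if_pos ⟨l, rfl⟩, zero_sub] at h1
    rw [h1]
    simpa using hk

theorem Ann.mem {T : Finset (Pt D X)} {a : Pt D X → ℝ} (h : Ann T a) {v : Pt D X} (hv : a v ≠ 0) :
    v ∈ T := by
  by_contra hcon
  exact hv (h.2.1 v hcon)

theorem Ann.special {T : Finset (Pt D X)} {a : Pt D X → ℝ} (h : Ann T a)
    (hT : Four (fun v : Pt D X => v.1) T) : Special a := by
  classical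
  have hsub : (Finset.univ.filter fun v => a v ≠ 0) ⊆ T := fun v hv =>
    h.mem (Finset.mem_filter.1 hv).2
  refine special_of_ann a h.1 (hT.mono hsub).1 (fun l => ?_) h.2.2
  have := (hT.mono hsub).2 l
  rwa [Finset.filter_filter] at this

theorem sum3n (F : Fin 3 → ℕ) {l l' l'' : Fin 3} (h12 : l ≠ l') (h13 : l ≠ l'') (h23 : l' ≠ l'') :
    ∑ i, F i = F l + F l' + F l'' := by
  rw [fin3_univ l l' l'' h12 h13 h23, Finset.sum_insert (by simp [h12, h13]),
    Finset.sum_insert (by simp [h23]), Finset.sum_singleton]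
  ring

omit [∀ l, Fintype (G ⧸ D.E l)] [Fintype X] in
theorem two_le {T : Finset (Pt D X)} {v w : Pt D X} {l : Fin 3} (hv : v ∈ T) (hw : w ∈ T)
    (hvl : v.1 = l) (hwl : w.1 = l) (hne : v ≠ w) : 2 ≤ (T.filter fun v => v.1 = l).card :=
  Finset.one_lt_card.2 ⟨v, Finset.mem_filter.2 ⟨hv, hvl⟩, w, Finset.mem_filter.2 ⟨hw, hwl⟩, hne⟩

omit [∀ l, Fintype (G ⧸ D.E l)] [Fintype X] in
theorem one_le {T : Finset (Pt D X)} {v : Pt D X} {l : Fin 3} (hv : v ∈ T)
    (hvl : v.1 = l) : 1 ≤ (T.filter fun v => v.1 = l).card :=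
  Finset.card_pos.2 ⟨v, Finset.mem_filter.2 ⟨hv, hvl⟩⟩

theorem other_two (l'' : Fin 3) : ∃ l l' : Fin 3, l ≠ l' ∧ l ≠ l'' ∧ l' ≠ l'' := by
  fin_cases l''
  · exact ⟨1, 2, by decide, by decide, by decide⟩
  · exact ⟨0, 2, by decide, by decide, by decide⟩
  · exact ⟨0, 1, by decide, by decide, by decide⟩

/-- Choice of a position. -/
theorem exists_full_erase [DecidableEq (Pt D X)] {T : Finset (Pt D X)} {a : Pt D X → ℝ}
    (ha : Ann T a) (hT : Four (fun v : Pt D X => v.1) T) :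
    3 ≤ T.card ∧ ∃ e0 ∈ T, a e0 ≠ 0 ∧ Full (T.erase e0) := by
  have hthirds := sum_thirds (fun v : Pt D X => v.1) T
  -- annihilators of smaller sets are of the first type
  have hsmall : ∀ e0 ∈ T, ¬ Full (T.erase e0) → ∃ g2 : G, ∀ l, pos X (eg D g2 l) ∈ T.erase e0 := by
    intro e0 he0 hnf
    rcases full_or_ann (T.erase e0) with h1 | ⟨c, hc⟩
    · exact absurd h1 hnf
    obtain ⟨k, hk, ⟨g2, hg2⟩ | ⟨g, g', hgg, ⟨l'', hl''⟩, hsq⟩⟩ :=
      hc.special (hT.mono (Finset.erase_subset _ _))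
    · exact ⟨g2, fun l => hc.mem (special_tri hk hg2 l)⟩
    · exfalso
      obtain ⟨l, l', h12, h13, h23⟩ := other_two l''
      obtain ⟨a1, a2, a3⟩ := special_sq hk hgg hl'' hsq l h13
      obtain ⟨b1, b2, b3⟩ := special_sq hk hgg hl'' hsq l' h23
      have c1 := two_le (hc.mem a1) (hc.mem a2) (l := l) rfl rfl a3
      have c2 := two_le (hc.mem b1) (hc.mem b2) (l := l') rfl rfl b3
      have c3 := sum_thirds (fun v : Pt D X => v.1) (T.erase e0)
      rw [sum3n _ h12 h13 h23, Finset.card_erase_of_mem he0] at c3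
      have := hT.1
      omega
  obtain ⟨k, hk, ⟨g, hg⟩ | ⟨g, g', hgg, ⟨l'', hl''⟩, hsq⟩⟩ := ha.special hT
  · have hmem : ∀ l, pos X (eg D g l) ∈ T := fun l => ha.mem (special_tri hk hg l)
    rw [sum3n _ (l := 0) (l' := 1) (l'' := 2) (by decide) (by decide) (by decide)] at hthirds
    have o0 := one_le (hmem 0) (l := 0) rfl
    have o1 := one_le (hmem 1) (l := 1) rfl
    have o2 := one_le (hmem 2) (l := 2) rfl
    refine ⟨by omega, pos X (eg D g 0), hmem 0, special_tri hk hg 0, ?_⟩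
    by_contra hnf
    obtain ⟨g2, hg2⟩ := hsmall _ (hmem 0) hnf
    have hmem2 : ∀ l, pos X (eg D g2 l) ∈ T := fun l => Finset.mem_of_mem_erase (hg2 l)
    have hne : pos X (eg D g 0) ≠ pos X (eg D g2 0) := (Finset.ne_of_mem_erase (hg2 0)).symm
    have t0 := two_le (hmem 0) (hmem2 0) (l := 0) rfl rfl hne
    have h4 := hT.1
    have e1 : pos X (eg D g 1) = pos X (eg D g2 1) := by
      by_contra hcon
      have := two_le (hmem 1) (hmem2 1) (l := 1) rfl rfl hcon
      omega
    have e2 : pos X (eg D g 2) = pos X (eg D g2 2) := by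
      by_contra hcon
      have := two_le (hmem 2) (hmem2 2) (l := 2) rfl rfl hcon
      omega
    have := third_inj (by decide : (1 : Fin 3) ≠ 2) (pos_injective e1) (pos_injective e2)
    rw [this] at hne
    exact hne rfl
  · obtain ⟨l, l', h12, h13, h23⟩ := other_two l''
    obtain ⟨a1, a2, a3⟩ := special_sq hk hgg hl'' hsq l h13
    obtain ⟨b1, b2, b3⟩ := special_sq hk hgg hl'' hsq l' h23
    have c1 := two_le (ha.mem a1) (ha.mem a2) (l := l) rfl rfl a3
    have c2 := two_le (ha.mem b1) (ha.mem b2) (l := l') rfl rfl b3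
    rw [sum3n _ h12 h13 h23] at hthirds
    have h4 := hT.1
    refine ⟨by omega, _, ha.mem a1, a1, ?_⟩
    by_contra hnf
    obtain ⟨g2, hg2⟩ := hsmall _ (ha.mem a1) hnf
    have := one_le (Finset.mem_of_mem_erase (hg2 l'')) (l := l'') rfl
    omega

/-- Decomposition of perturbations. -/
theorem decomposition {T : Finset (Pt D X)} (hT : Four (fun v : Pt D X => v.1) T) :
    Full T ∨ (3 ≤ T.card ∧ ∃ a : Pt D X → ℝ, Special a ∧ ∃ τ : Pt D X → ℝ,
      ∀ ω : Pt D X → ℝ, ∃ f : Ix D X → ℝ, ∀ v ∈ T, Φ f v + (∑ w, a w * ω w) * τ v = ω v) := by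
  classical
  rcases full_or_ann T with h | ⟨a, ha⟩
  · exact Or.inl h
  obtain ⟨h3, e0, he0, hae0, hfull⟩ := exists_full_erase ha hT
  refine Or.inr ⟨h3, a, ha.special hT, Pi.single e0 (a e0)⁻¹, fun ω => ?_⟩
  obtain ⟨f, hf⟩ := hfull ω
  refine ⟨f, fun v hv => ?_⟩
  by_cases hve : v = e0
  · subst hve
    rw [Pi.single_eq_same]
    have h1 : ∑ w, a w * ω w = a v * (ω v - Φ f v) := by
      have h2 : ∑ w, a w * (ω w - Φ f w) = ∑ w, a w * ω w := by
        simp only [mul_sub, Finset.sum_sub_distrib, ha.2.2 f, sub_zero]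
      rw [← h2, Finset.sum_eq_single v]
      · intro w _ hw
        by_cases hwT : w ∈ T
        · rw [hf w (Finset.mem_erase.2 ⟨hw, hwT⟩), sub_self, mul_zero]
        · rw [ha.2.1 w hwT, zero_mul]
      · intro h
        exact absurd (Finset.mem_univ _) h
    rw [h1]
    field_simp
    ring
  · rw [Pi.single_eq_of_ne hve, mul_zero, add_zero]
    exact hf v (Finset.mem_erase.2 ⟨hve, hv⟩)

end Pool.Agent.Helper24.FL
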