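import Pool.Agent.Helper24.FL.Card
import Pool.Agent.Helper15.FL.RED
import Pool.Agent.Helper15.FL.CENT
import Pool.Agent.Helper9.FL.COPIES
import Pool.Agent.Helper9.FL.DECAY

/-!
# The group data
-/

namespace Pool.Agent.Helper24.FL

/-- The group data. -/
noncomputable def groupData (p : ℕ) [Fact p.Prime] (R : ℕ) (hR : 2 ≤ R) :
    Data (𝒢 p (R + 1)) p R where
  E := EE p (R + 1)
  card_E := card_EE p (R + 1) (by omega)
  κ := kk p (R + 1)
  kill := by
    rintro i _ ⟨c, rfl⟩
    exact kk_ee_same p (R + 1) i c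
  fix := by
    rintro i j hij _ ⟨c, rfl⟩
    exact kk_ee_ne p (R + 1) i j hij c
  cent := Pool.Agent.Helper15.FL.cent p (R + 1) (by omega)
  red_ne := (Pool.Agent.Helper15.FL.red p R).1
  red_unique := (Pool.Agent.Helper15.FL.red p R).2

theorem group : St_GROUP := by
  intro p _ R hR
  refine ⟨𝒢 p (R + 1), inferInstance, inferInstance, ⟨groupData p R hR⟩, card_𝒢 p (R + 1)⟩

/-- Groups of all orders. -/
theorem exists_group (p : ℕ) [Fact p.Prime] (R n : ℕ) (hR : 2 ≤ R) (hn : p ^ (512 * (R + 1)) ≤ n) :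
    ∃ (G : Type) (_ : Group G) (_ : Finite G), Nonempty (Data G p R) ∧
      Nat.card G ≤ n * p ∧ n * p ≤ 2 * Nat.card G := by
  obtain ⟨G, hG, hfin, ⟨D⟩, hcard⟩ := group p R hR
  have hp : 2 ≤ p := (Fact.out : p.Prime).two_le
  have hc0 : 0 < Nat.card G := Nat.card_pos
  set r := n * p / Nat.card G with hr
  have hle : Nat.card G ≤ n * p := (hcard.trans hn).trans (Nat.le_mul_of_pos_right n (by omega))
  have hr0 : 0 < r := Nat.div_pos hle hc0
  haveI : NeZero r := ⟨by omega⟩
  have hcopies := Pool.Agent.Helper9.FL.copies G p R r D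
  refine ⟨G × Multiplicative (ZMod r), inferInstance, ?_, hcopies, ?_⟩
  · haveI : Finite (Multiplicative (ZMod r)) := Finite.of_equiv (ZMod r) Multiplicative.ofAdd
    infer_instance
  · have h1 : Nat.card (G × Multiplicative (ZMod r)) = Nat.card G * r := by
      rw [Nat.card_prod, Nat.card_congr Multiplicative.toAdd, Nat.card_zmod]
    rw [h1]
    have h2 : Nat.card G * r ≤ n * p := Nat.mul_div_le (n * p) (Nat.card G)
    have h3 : n * p < Nat.card G * r + Nat.card G := by
      have := Nat.lt_mul_div_succ (n * p) hc0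
      rw [mul_add, mul_one] at this
      exact this
    have h4 : Nat.card G ≤ Nat.card G * r := Nat.le_mul_of_pos_right _ hr0
    exact ⟨h2, by omega⟩

end Pool.Agent.Helper24.FL
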