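import Pool.Agent.Helper24.FL.Defs

/-!
# The group
-/

open Polynomial

namespace Pool.Agent.Helper24.FL

/-- The ring `F_p[X] / (X^r)`. -/
abbrev A (p r : ℕ) : Type := AdjoinRoot ((X : (ZMod p)[X]) ^ r)

/-- The class of `X`. -/
noncomputable def tt (p r : ℕ) : A p r := AdjoinRoot.root _

/-- Three nilpotent matrices, `N l w = v l * det (v l, w)` with `v = (1,0), (0,1), (1,1)`. -/
def N (B : Type) [CommRing B] : Fin 3 → Matrix (Fin 2) (Fin 2) B :=
  ![!![0, 1; 0, 0], !![0, 0; -1, 0], !![-1, 1; -1, 1]]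

/-- Matrices with four rows. -/
abbrev Mat (p r : ℕ) : Type := Matrix (Fin 2 ⊕ Fin 2) (Fin 2 ⊕ Fin 2) (A p r)

/-- The matrices in the coordinate `s`. -/
noncomputable def M (p r : ℕ) (s : Option (Fin 3)) (j : Fin 3) : Mat p r :=
  if s = some j then Matrix.fromBlocks 0 1 0 0
  else Matrix.fromBlocks (tt p r • N (A p r) j) 0 0 0

theorem N_sq (B : Type) [CommRing B] (j : Fin 3) : N B j * N B j = 0 := by
  fin_cases j <;> (ext a b; fin_cases a <;> fin_cases b <;>
    simp [N, Matrix.mul_apply, Fin.sum_univ_two])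

theorem M_sq (p r : ℕ) (s : Option (Fin 3)) (j : Fin 3) : M p r s j * M p r s j = 0 := by
  unfold M
  split_ifs
  · rw [Matrix.fromBlocks_multiply]
    simp
  · rw [Matrix.fromBlocks_multiply]
    simp [N_sq, Matrix.smul_mul, Matrix.mul_smul]

/-- The unipotent element `1 + c Y`. -/
noncomputable def unip {p r : ℕ} (Y : Mat p r) (hY : Y * Y = 0) (c : ZMod p) : (Mat p r)ˣ where
  val := 1 + (algebraMap (ZMod p) (A p r) c) • Y
  inv := 1 - (algebraMap (ZMod p) (A p r) c) • Y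
  val_inv := by
    rw [mul_sub, mul_one, add_mul, one_mul, Matrix.smul_mul, Matrix.mul_smul, hY]
    simp
  inv_val := by
    rw [mul_add, mul_one, sub_mul, one_mul, Matrix.smul_mul, Matrix.mul_smul, hY]
    simp

/-- The group. -/
abbrev 𝒢 (p r : ℕ) : Type := (Finset (Fin 3) × Option (Fin 3)) → (Mat p r)ˣ

/-- The homomorphisms onto the three subgroups. -/
noncomputable def ee (p r : ℕ) (j : Fin 3) : Multiplicative (ZMod p) →* 𝒢 p r where
  toFun c := fun q => if j ∈ q.1 then 1 else unip (M p r q.2 j) (M_sq p r q.2 j) c.toAdd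
  map_one' := by
    ext1 q
    show (if j ∈ q.1 then (1 : (Mat p r)ˣ) else _) = 1
    split_ifs
    · rfl
    · ext1
      simp [unip]
  map_mul' c c' := by
    ext1 q
    show (if j ∈ q.1 then (1 : (Mat p r)ˣ) else _) = (if j ∈ q.1 then (1 : (Mat p r)ˣ) else _) *
      (if j ∈ q.1 then (1 : (Mat p r)ˣ) else _)
    split_ifs
    · rw [mul_one]
    · ext1
      rw [Units.val_mul]
      simp only [unip, toAdd_mul, map_add]
      rw [add_mul, one_mul, mul_add, mul_one, Matrix.smul_mul, Matrix.mul_smul, M_sq]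
      simp only [smul_zero, add_zero, add_smul]
      abel

/-- The endomorphisms. -/
def kk (p r : ℕ) (i : Fin 3) : 𝒢 p r →* 𝒢 p r where
  toFun x := fun q => x (insert i q.1, q.2)
  map_one' := rfl
  map_mul' _ _ := rfl

theorem kk_ee_same (p r : ℕ) (i : Fin 3) (c : Multiplicative (ZMod p)) :
    kk p r i (ee p r i c) = 1 := by
  ext1 q
  show (if i ∈ insert i q.1 then (1 : (Mat p r)ˣ) else _) = 1
  rw [if_pos (Finset.mem_insert_self _ _)]

theorem kk_ee_ne (p r : ℕ) (i j : Fin 3) (hij : j ≠ i) (c : Multiplicative (ZMod p)) :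
    kk p r i (ee p r j c) = ee p r j c := by
  ext1 q
  show (if j ∈ insert i q.1 then (1 : (Mat p r)ˣ) else _) = if j ∈ q.1 then (1 : (Mat p r)ˣ) else _
  simp only [Finset.mem_insert, hij, false_or]

/-- The three subgroups. -/
noncomputable def EE (p r : ℕ) (j : Fin 3) : Subgroup (𝒢 p r) := (ee p r j).range

/-- Part RED: reduced words. -/
def St_RED : Prop := ∀ (p : ℕ) [Fact p.Prime] (R : ℕ),
  (∀ k l g, k ≤ R → Red (EE p (R + 1)) k l g → g ≠ 1) ∧
  ∀ k k' l l' g, k ≤ R → k' ≤ R → Red (EE p (R + 1)) k l g → Red (EE p (R + 1)) k' l' g →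
    k = k' ∧ l = l'

/-- Part CENT: centralizers. -/
def St_CENT : Prop := ∀ (p : ℕ) [Fact p.Prime] (r : ℕ), 3 ≤ r → ∀ i, ∀ e ∈ EE p r i, e ≠ 1 →
  ∀ h ∈ EE p r (i + 1) ⊔ EE p r (i + 2), e * h = h * e → h = 1

end Pool.Agent.Helper24.FL
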