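import Pool.Agent.Helper24.FL.Generic

/-!
# Signs of polynomials near a generic point
-/

open MvPolynomial Filter Topology

namespace Pool.Agent.Helper24.FL

theorem eval_congr_vars {V : Type} (q : MvPolynomial V ℝ) (x y : V → ℝ)
    (h : ∀ v ∈ q.vars, x v = y v) : eval x q = eval y q := by
  have := eval₂Hom_congr' (f₁ := RingHom.id ℝ) (f₂ := RingHom.id ℝ) (g₁ := x)
    (g₂ := y) (p₁ := q) (p₂ := q) rfl (fun i hi _ => h i hi) rfl
  simpa using this

theorem exists_eval_ne {V : Type} (q : MvPolynomial V ℝ) (hq : q ≠ 0) : ∃ x, eval x q ≠ 0 := by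
  by_contra hcon
  push Not at hcon
  exact hq (MvPolynomial.funext fun x => by rw [hcon x, map_zero])

/-- The sign near a point. -/
theorem sign_near (F : ℝ → ℝ) (hF : Continuous F) (h0 : F 0 ≠ 0) :
    ∀ᶠ ε in 𝓝[>] (0 : ℝ), SignType.sign (F ε) = SignType.sign (F 0) := by
  rcases lt_or_gt_of_ne h0 with h | h
  · have h1 : ∀ᶠ ε in 𝓝 (0 : ℝ), F ε < 0 := hF.continuousAt.eventually_lt continuousAt_const h
    filter_upwards [nhdsWithin_le_nhds h1] with ε hε
    rw [sign_neg hε, sign_neg h]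
  · have h1 : ∀ᶠ ε in 𝓝 (0 : ℝ), 0 < F ε := continuousAt_const.eventually_lt hF.continuousAt h
    filter_upwards [nhdsWithin_le_nhds h1] with ε hε
    rw [sign_pos hε, sign_pos h]

variable {G : Type} [Group G] {m R : ℕ} {D : Data G m R} {X : Type}

/-- The polynomials of the numbers. -/
noncomputable def φ (v : Pt D X) : MvPolynomial (Ix D X) ℝ :=
  match v with
  | ⟨l, .inl c⟩ => MvPolynomial.X (.inl ⟨l + 1, en D (l + 1) ⟨l, c⟩⟩) -
      MvPolynomial.X (.inl ⟨l + 2, en D (l + 2) ⟨l, c⟩⟩)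
  | ⟨l, .inr z⟩ => MvPolynomial.X (.inr (l, z))

theorem eval_φ (f : Ix D X → ℝ) (v : Pt D X) : eval f (φ v) = Φ f v := by
  obtain ⟨l, c | z⟩ := v
  · simp [φ, Φ]
  · simp [φ, Φ]

variable [∀ l, Fintype (G ⧸ D.E l)] [Fintype X]

/-- Generic points, full case. -/
theorem generic_full (q : MvPolynomial (Pt D X) ℝ) (hq : q ≠ 0) (hfull : Full q.vars) :
    ∃ gen : MvPolynomial (Ix D X) ℝ, gen ≠ 0 ∧ ∀ f, eval f gen ≠ 0 →
      ∃ σ : SignType, σ ≠ 0 ∧ ∀ ω : Pt D X → ℝ,
        ∀ᶠ ε in 𝓝[>] (0 : ℝ), SignType.sign (eval (Φ f + ε • ω) q) = σ := by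
  have hev : ∀ f : Ix D X → ℝ, eval f (bind₁ φ q) = eval (Φ f) q := by
    intro f
    have h1 := eval₂Hom_bind₁ (RingHom.id ℝ) f φ q
    have h2 : eval f (bind₁ φ q) = eval (fun v => eval f (φ v)) q := by simpa using h1
    rw [h2]
    congr 2
    funext v
    exact eval_φ f v
  refine ⟨bind₁ φ q, ?_, fun f hf => ⟨SignType.sign (eval (Φ f) q), ?_, fun ω => ?_⟩⟩
  · intro h
    obtain ⟨x, hx⟩ := exists_eval_ne q hq
    obtain ⟨f, hf⟩ := hfull x
    apply hx
    rw [eval_congr_vars q x (Φ f) (fun v hv => (hf v hv).symm), ← hev, h, map_zero]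
  · rw [hev] at hf
    simpa [sign_eq_zero_iff] using hf
  · rw [hev] at hf
    have hc : Continuous fun ε : ℝ => eval (Φ f + ε • ω) q :=
      (MvPolynomial.continuous_eval q).comp (by fun_prop)
    have := sign_near _ hc (by simpa using hf)
    simpa using this

/-- Generic points, special case. -/
theorem generic_special (q : MvPolynomial (Pt D X) ℝ) (hq : q ≠ 0) (a τ : Pt D X → ℝ)
    (hdec : ∀ ω : Pt D X → ℝ, ∃ f : Ix D X → ℝ, ∀ v ∈ q.vars,
      Φ f v + (∑ w, a w * ω w) * τ v = ω v) :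
    ∃ gen : MvPolynomial (Ix D X) ℝ, gen ≠ 0 ∧ ∀ f, eval f gen ≠ 0 →
      ∃ (σ : SignType) (k : ℕ), σ ≠ 0 ∧ ∀ ω : Pt D X → ℝ, ∑ w, a w * ω w ≠ 0 →
        ∀ᶠ ε in 𝓝[>] (0 : ℝ), SignType.sign (eval (Φ f + ε • ω) q) =
          SignType.sign (∑ w, a w * ω w) ^ k * σ := by
  set P : Polynomial (MvPolynomial (Ix D X) ℝ) :=
    eval₂ (Polynomial.C.comp C) (fun v => Polynomial.C (φ v) + Polynomial.X * Polynomial.C (C (τ v))) q
    with hP
  have hev : ∀ (f : Ix D X → ℝ) (s : ℝ), Polynomial.eval s (P.map (eval f)) =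
      eval (fun v => Φ f v + s * τ v) q := by
    intro f s
    have h1 := MvPolynomial.eval₂_comp_left
      ((Polynomial.evalRingHom s).comp (Polynomial.mapRingHom (eval f)))
      (Polynomial.C.comp C : ℝ →+* Polynomial (MvPolynomial (Ix D X) ℝ))
      (fun v => Polynomial.C (φ v) + Polynomial.X * Polynomial.C (C (τ v))) q
    rw [RingHom.comp_apply, Polynomial.coe_mapRingHom, Polynomial.coe_evalRingHom, ← hP] at h1
    rw [h1]
    have h2 : ((Polynomial.evalRingHom s).comp (Polynomial.mapRingHom (eval f))).comp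
        (Polynomial.C.comp C : ℝ →+* Polynomial (MvPolynomial (Ix D X) ℝ)) = RingHom.id ℝ := by
      ext r
      simp
    have h3 : (⇑((Polynomial.evalRingHom s).comp (Polynomial.mapRingHom (eval f))) ∘
        fun v => Polynomial.C (φ v) + Polynomial.X * Polynomial.C (C (τ v))) =
        fun v => Φ f v + s * τ v := by
      funext v
      simp only [Function.comp_apply, RingHom.comp_apply, Polynomial.coe_mapRingHom,
        Polynomial.map_add, Polynomial.map_C, Polynomial.map_mul, Polynomial.map_X,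
        Polynomial.coe_evalRingHom, Polynomial.eval_add, Polynomial.eval_C, Polynomial.eval_mul,
        Polynomial.eval_X, eval_φ, MvPolynomial.eval_C]
    rw [h2, h3]
    rfl
  have hP0 : P ≠ 0 := by
    intro h
    obtain ⟨x, hx⟩ := exists_eval_ne q hq
    obtain ⟨f, hf⟩ := hdec x
    apply hx
    rw [eval_congr_vars q x (fun v => Φ f v + (∑ w, a w * x w) * τ v) (fun v hv => (hf v hv).symm),
      ← hev, h]
    simp
  obtain ⟨P', hP'⟩ : Polynomial.X ^ P.natTrailingDegree ∣ P := by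
    rw [Polynomial.X_pow_dvd_iff]
    intro d hd
    exact Polynomial.coeff_eq_zero_of_lt_natTrailingDegree hd
  have hgen : P'.coeff 0 ≠ 0 := by
    have h1 : P.coeff P.natTrailingDegree ≠ 0 := Polynomial.coeff_natTrailingDegree_ne_zero.2 hP0
    intro h2
    apply h1
    have h3 := congrArg (fun p => Polynomial.coeff p P.natTrailingDegree) hP'
    simp only [Polynomial.coeff_X_pow_mul', le_refl, if_true, Nat.sub_self, h2] at h3
    exact h3
  refine ⟨P'.coeff 0, hgen, fun f hf => ?_⟩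
  refine ⟨SignType.sign (eval f (P'.coeff 0)), P.natTrailingDegree, ?_, fun ω hω => ?_⟩
  · simpa [sign_eq_zero_iff] using hf
  obtain ⟨f', hf'⟩ := hdec ω
  set A := ∑ w, a w * ω w with hA
  have hc : Continuous fun ε : ℝ => Polynomial.eval (ε * A) (P'.map (eval (f + ε • f'))) := by
    have : (fun ε : ℝ => Polynomial.eval (ε * A) (P'.map (eval (f + ε • f')))) =
        fun ε : ℝ => ∑ i ∈ Finset.range (P'.natDegree + 1),
          eval (f + ε • f') (P'.coeff i) * (ε * A) ^ i := by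
      funext ε
      rw [Polynomial.eval_map, Polynomial.eval₂_eq_sum_range]
    rw [this]
    refine continuous_finsetSum _ fun i _ => Continuous.mul ?_ (by fun_prop)
    exact (MvPolynomial.continuous_eval _).comp (by fun_prop)
  have h0 : Polynomial.eval (0 * A) (P'.map (eval (f + (0 : ℝ) • f'))) = eval f (P'.coeff 0) := by
    rw [zero_mul, zero_smul, add_zero, ← Polynomial.coeff_zero_eq_eval_zero, Polynomial.coeff_map]
  have hnear := sign_near _ hc (by rw [h0]; exact hf)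
  filter_upwards [hnear, self_mem_nhdsWithin] with ε h1 hε
  have hε' : 0 < ε := hε
  have h2 : eval (Φ f + ε • ω) q = (ε * A) ^ P.natTrailingDegree *
      Polynomial.eval (ε * A) (P'.map (eval (f + ε • f'))) := by
    have h3 : eval (Φ f + ε • ω) q = Polynomial.eval (ε * A) (P.map (eval (f + ε • f'))) := by
      rw [hev]
      apply eval_congr_vars
      intro v hv
      rw [Φ_add, Φ_smul, Pi.add_apply, Pi.add_apply, Pi.smul_apply, Pi.smul_apply, ← hf' v hv]
      simp only [smul_eq_mul]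
      ring
    rw [h3]
    conv_lhs => rw [hP']
    rw [Polynomial.map_mul, Polynomial.map_pow, Polynomial.map_X, Polynomial.eval_mul,
      Polynomial.eval_pow, Polynomial.eval_X]
  rw [h2, sign_mul, h1, h0, sign_pow, sign_mul, sign_pos hε', one_mul]

/-- Generic points. -/
theorem generic (q : MvPolynomial (Pt D X) ℝ) (hq : q ≠ 0)
    (h4 : Four (fun v : Pt D X => v.1) q.vars) :
    ∃ gen : MvPolynomial (Ix D X) ℝ, gen ≠ 0 ∧
      ((∀ f, eval f gen ≠ 0 → ∃ σ : SignType, σ ≠ 0 ∧ ∀ ω : Pt D X → ℝ,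
        ∀ᶠ ε in 𝓝[>] (0 : ℝ), SignType.sign (eval (Φ f + ε • ω) q) = σ) ∨
      (3 ≤ q.vars.card ∧ ∃ a : Pt D X → ℝ, Special a ∧ ∀ f, eval f gen ≠ 0 →
        ∃ (σ : SignType) (k : ℕ), σ ≠ 0 ∧ ∀ ω : Pt D X → ℝ, ∑ w, a w * ω w ≠ 0 →
        ∀ᶠ ε in 𝓝[>] (0 : ℝ), SignType.sign (eval (Φ f + ε • ω) q) =
          SignType.sign (∑ w, a w * ω w) ^ k * σ)) := by
  rcases decomposition h4 with h | ⟨h3, a, ha, τ, hτ⟩
  · obtain ⟨gen, h1, h2⟩ := generic_full q hq h
    exact ⟨gen, h1, Or.inl h2⟩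
  · obtain ⟨gen, h1, h2⟩ := generic_special q hq a τ hτ
    exact ⟨gen, h1, Or.inr ⟨h3, a, ha, h2⟩⟩

end Pool.Agent.Helper24.FL
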