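import Pool.Agent.Helper24.FL.Defs

/-!
# Sets of at most four edges without vertices of degree one
-/

namespace Pool.Agent.Helper24.FL

section

variable {Ed : Type} [DecidableEq Ed] {W : Fin 3 → Type} (th : Ed → Fin 3) (en : ∀ i, Ed → W i)

/-- Sets of at most four edges in a tripartite graph in which each vertex has degree `0` or `≥ 2` -/
theorem sparse_sets (S : Finset Ed) (hS : S.Nonempty) (h4 : S.card ≤ 4)
    (h3 : ∀ l, (S.filter fun e => th e = l).card ≤ 3)
    (hinj : ∀ e ∈ S, ∀ f ∈ S, th e = th f → (∀ i, i ≠ th e → en i e = en i f) → e = f)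
    (hdeg : ∀ e ∈ S, ∀ i, i ≠ th e → ∃ f ∈ S, f ≠ e ∧ i ≠ th f ∧ en i f = en i e) :
    (∃ e : Fin 3 → Ed, (∀ l, th (e l) = l) ∧ S = Finset.univ.image e ∧
      ∀ i l l', l ≠ i → l' ≠ i → en i (e l) = en i (e l')) ∨
    ∃ l l' l'' : Fin 3, l ≠ l' ∧ l ≠ l'' ∧ l' ≠ l'' ∧ ∃ a a' b b' : Ed, th a = l ∧ th a' = l ∧
      th b = l' ∧ th b' = l' ∧ a ≠ a' ∧ b ≠ b' ∧ S = {a, a', b, b'} ∧
      en l' a = en l' a' ∧ en l b = en l b' ∧ en l'' a = en l'' b ∧ en l'' a' = en l'' b' := by
  classical
  -- pairing
  have hpair : ∀ i, (S.filter fun e => th e ≠ i).card ≤ 3 → ∀ e ∈ S, ∀ f ∈ S, th e ≠ i →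
      th f ≠ i → en i e = en i f := by
    intro i hi e he f hf hei hfi
    by_contra hne
    obtain ⟨e', he', h1, h2, h3'⟩ := hdeg e he i (Ne.symm hei)
    obtain ⟨f', hf', h4', h5, h6⟩ := hdeg f hf i (Ne.symm hfi)
    have hsub : ({e, e', f, f'} : Finset Ed) ⊆ S.filter fun e => th e ≠ i := by
      intro x hx
      simp only [Finset.mem_insert, Finset.mem_singleton] at hx
      rw [Finset.mem_filter]
      rcases hx with rfl | rfl | rfl | rfl
      · exact ⟨he, hei⟩
      · exact ⟨he', Ne.symm h2⟩
      · exact ⟨hf, hfi⟩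
      · exact ⟨hf', Ne.symm h5⟩
    have hcard : ({e, e', f, f'} : Finset Ed).card = 4 := by
      have n1 : e ≠ e' := Ne.symm h1
      have n2 : e ≠ f := fun h => hne (by rw [h])
      have n3 : e ≠ f' := fun h => hne (by rw [h, h6])
      have n4 : e' ≠ f := fun h => hne (by rw [← h3', h])
      have n5 : e' ≠ f' := fun h => hne (by rw [← h3', h, h6])
      have n6 : f ≠ f' := Ne.symm h4'
      rw [Finset.card_insert_of_notMem (by simp [n1, n2, n3]),
        Finset.card_insert_of_notMem (by simp [n4, n5]),
        Finset.card_insert_of_notMem (by simp [n6]), Finset.card_singleton]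
    have := Finset.card_le_card hsub
    omega
  have hsplit : ∀ i, (S.filter fun e => th e = i).card + (S.filter fun e => th e ≠ i).card =
      S.card := fun i => Finset.card_filter_add_card_filter_not _
  by_cases hall : ∀ l, (S.filter fun e => th e = l).Nonempty
  · left
    have hp : ∀ i, ∀ e ∈ S, ∀ f ∈ S, th e ≠ i → th f ≠ i → en i e = en i f := by
      intro i
      apply hpair
      have h1 := (hall i).card_pos
      have h2 := hsplit i
      omega
    choose e he using fun l => (hall l)
    have heS : ∀ l, e l ∈ S := fun l => (Finset.mem_filter.1 (he l)).1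
    have het : ∀ l, th (e l) = l := fun l => (Finset.mem_filter.1 (he l)).2
    refine ⟨e, het, ?_, ?_⟩
    · ext x
      constructor
      · intro hx
        rw [Finset.mem_image]
        refine ⟨th x, Finset.mem_univ _, ?_⟩
        apply hinj _ (heS _) _ hx (het _)
        intro i hi
        refine hp i _ (heS _) _ hx (Ne.symm hi) ?_
        rw [het] at hi
        exact Ne.symm hi
      · intro hx
        obtain ⟨l, -, rfl⟩ := Finset.mem_image.1 hx
        exact heS l
    · intro i l l' hl hl'
      exact hp i _ (heS _) _ (heS _) (by rwa [het]) (by rwa [het])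
  · right
    push Not at hall
    obtain ⟨l'', hl''⟩ := hall
    have hth : ∀ e ∈ S, th e ≠ l'' := by
      intro e he h
      have : e ∈ S.filter fun e => th e = l'' := Finset.mem_filter.2 ⟨he, h⟩
      rw [hl''] at this
      exact Finset.notMem_empty _ this
    obtain ⟨l, l', h12, h13, h23, hcov⟩ : ∃ l l' : Fin 3, l ≠ l' ∧ l ≠ l'' ∧ l' ≠ l'' ∧
        ∀ i, i = l ∨ i = l' ∨ i = l'' := by
      fin_cases l''
      · exact ⟨1, 2, by decide, by decide, by decide, by decide⟩
      · exact ⟨0, 2, by decide, by decide, by decide, by decide⟩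
      · exact ⟨0, 1, by decide, by decide, by decide, by decide⟩
    have hthS : ∀ e ∈ S, th e = l ∨ th e = l' := by
      intro e he
      rcases hcov (th e) with h | h | h
      · exact Or.inl h
      · exact Or.inr h
      · exact absurd h (hth e he)
    -- the edges in the third `l` share the vertex in `l'`
    have share : ∀ l l' : Fin 3, l ≠ l' → l ≠ l'' → l' ≠ l'' → (∀ e ∈ S, th e = l ∨ th e = l') →
        ∀ e ∈ S, ∀ f ∈ S, th e = l → th f = l → en l' e = en l' f := by
      intro l l' h12 h13 h23 hthS e he f hf hel hfl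
      apply hpair l' _ e he f hf (by rw [hel]; exact h12) (by rw [hfl]; exact h12)
      refine le_trans (Finset.card_le_card ?_) (h3 l)
      intro x hx
      rw [Finset.mem_filter] at hx ⊢
      refine ⟨hx.1, ?_⟩
      rcases hthS x hx.1 with h | h
      · exact h
      · exact absurd h hx.2
    have two : ∀ l l' : Fin 3, l ≠ l' → l ≠ l'' → l' ≠ l'' → (∀ e ∈ S, th e = l ∨ th e = l') →
        ∀ e ∈ S, th e = l → ∃ f ∈ S, f ≠ e ∧ th f = l := by
      intro l l' h12 h13 h23 hthS e he hel
      obtain ⟨f, hf, h1, h2, -⟩ := hdeg e he l' (by rw [hel]; exact Ne.symm h12)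
      refine ⟨f, hf, h1, ?_⟩
      rcases hthS f hf with h | h
      · exact h
      · exact absurd h.symm h2
    have hthS' : ∀ e ∈ S, th e = l' ∨ th e = l := fun e he => (hthS e he).symm
    have other : ∀ l l' : Fin 3, l ≠ l' → l ≠ l'' → l' ≠ l'' → (∀ e ∈ S, th e = l ∨ th e = l') →
        (∀ i, i = l ∨ i = l' ∨ i = l'') →
        (∃ e ∈ S, th e = l) → ∃ e ∈ S, th e = l' := by
      intro l l' h12 h13 h23 hthS hcov ⟨e, he, hel⟩
      by_contra hcon
      push Not at hcon
      have hall' : ∀ f ∈ S, th f = l := by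
        intro f hf
        rcases hthS f hf with h | h
        · exact h
        · exact absurd h (hcon f hf)
      obtain ⟨f, hf, hne, hfl⟩ := two l l' h12 h13 h23 hthS e he hel
      apply hne
      apply hinj f hf e he (by rw [hel, hfl])
      intro i hi
      rw [hfl] at hi
      rcases hcov i with h | h | h
      · exact absurd h hi
      · rw [h]
        exact share l l' h12 h13 h23 hthS f hf e he hfl hel
      · rw [h]
        apply hpair l'' _ f hf e he (by rw [hfl]; exact h13) (by rw [hel]; exact h13)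
        refine le_trans (Finset.card_le_card ?_) (h3 l)
        intro x hx
        rw [Finset.mem_filter] at hx ⊢
        exact ⟨hx.1, hall' x hx.1⟩
    have hcov' : ∀ i, i = l' ∨ i = l ∨ i = l'' := fun i => by
      rcases hcov i with h | h | h
      · exact Or.inr (Or.inl h)
      · exact Or.inl h
      · exact Or.inr (Or.inr h)
    have hboth : (∃ e ∈ S, th e = l) ∧ ∃ e ∈ S, th e = l' := by
      obtain ⟨e, he⟩ := hS
      rcases hthS e he with h | h
      · exact ⟨⟨e, he, h⟩, other l l' h12 h13 h23 hthS hcov ⟨e, he, h⟩⟩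
      · exact ⟨other l' l (Ne.symm h12) h23 h13 hthS' hcov' ⟨e, he, h⟩, ⟨e, he, h⟩⟩
    obtain ⟨⟨a, ha, hal⟩, ⟨b, hb, hbl⟩⟩ := hboth
    obtain ⟨a', ha', haa, hal'⟩ := two l l' h12 h13 h23 hthS a ha hal
    obtain ⟨b', hb', hbb, hbl'⟩ := two l' l (Ne.symm h12) h23 h13 hthS' b hb hbl
    have nab : ∀ x y, th x = l → th y = l' → x ≠ y := fun x y hx hy h => h12 (by rw [← hx, h, hy])
    have hcard : ({a, a', b, b'} : Finset Ed).card = 4 := by
      rw [Finset.card_insert_of_notMem (by
          simp [Ne.symm haa, nab a b hal hbl, nab a b' hal hbl']),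
        Finset.card_insert_of_notMem (by simp [nab a' b hal' hbl, nab a' b' hal' hbl']),
        Finset.card_insert_of_notMem (by simp [Ne.symm hbb]), Finset.card_singleton]
    have hSeq : ({a, a', b, b'} : Finset Ed) = S := by
      apply Finset.eq_of_subset_of_card_le
      · intro x hx
        simp only [Finset.mem_insert, Finset.mem_singleton] at hx
        rcases hx with rfl | rfl | rfl | rfl <;> assumption
      · rw [hcard]
        exact h4
    have sh1 := share l l' h12 h13 h23 hthS a ha a' ha' hal hal'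
    have sh2 := share l' l (Ne.symm h12) h23 h13 hthS' b hb b' hb' hbl hbl'
    have ne1 : en l'' a ≠ en l'' a' := by
      intro h
      apply haa
      apply hinj a' ha' a ha (by rw [hal, hal'])
      intro i hi
      rw [hal'] at hi
      rcases hcov i with h' | h' | h'
      · exact absurd h' hi
      · rw [h', sh1]
      · rw [h', h]
    obtain ⟨f, hf, hfa, -, hfe⟩ := hdeg a ha l'' (by rw [hal]; exact Ne.symm h13)
    obtain ⟨f', hf', hfa', -, hfe'⟩ := hdeg a' ha' l'' (by rw [hal']; exact Ne.symm h13)
    rw [← hSeq] at hf hf'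
    simp only [Finset.mem_insert, Finset.mem_singleton] at hf hf'
    refine ⟨l, l', l'', h12, h13, h23, ?_⟩
    rcases hf with rfl | rfl | rfl | rfl
    · exact absurd rfl hfa
    · exact absurd hfe.symm ne1
    · rcases hf' with rfl | rfl | rfl | rfl
      · exact absurd hfe' ne1
      · exact absurd rfl hfa'
      · exact absurd (hfe.symm.trans hfe') ne1
      · exact ⟨a, a', f, f', hal, hal', hbl, hbl', Ne.symm haa, Ne.symm hbb, hSeq.symm, sh1, sh2,
          hfe.symm, hfe'.symm⟩
    · rcases hf' with rfl | rfl | rfl | rfl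
      · exact absurd hfe' ne1
      · exact absurd rfl hfa'
      · refine ⟨a, a', f, f', hal, hal', hbl', hbl, Ne.symm haa, hbb, ?_, sh1, sh2.symm,
          hfe.symm, hfe'.symm⟩
        rw [← hSeq]
        ext x
        simp only [Finset.mem_insert, Finset.mem_singleton]
        tauto
      · exact absurd (hfe.symm.trans hfe') ne1

end

end Pool.Agent.Helper24.FL
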