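import Pool.Agent.Helper24.FL.Abstract
import Pool.Agent.Helper24.FL.Group

/-!
# Lists with `3 n` numbers
-/

open MvPolynomial

namespace Pool.Agent.Helper24.FL

/-- The positions of a list of `3 n` numbers: three thirds with `n` positions each. -/
abbrev Pos (n : ℕ) : Type := Fin 3 × Fin n

/-- The adversary for lists of `3 n` numbers. -/
theorem main (p : ℕ) [Fact p.Prime] (R n : ℕ) (hR : 2 ≤ R) (hpR : 2 * p ≤ 2 ^ (R - 1))
    (hn : p ^ (512 * (R + 1)) ≤ n) (J : Finset (MvPolynomial (Pos n) ℝ))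
    (hJ : ∀ q ∈ J, Four (fun v : Pos n => v.1) q.vars) :
    ∃ (G : Type) (_ : Fintype G) (x : Pos n → ℝ) (y : G → Pos n → ℝ)
      (T : MvPolynomial (Pos n) ℝ → Finset G), n * p ≤ 2 * Fintype.card G ∧
      (Function.Injective x ∧ ¬ Solved x) ∧ (∀ g, Function.Injective (y g) ∧ Solved (y g)) ∧
      ∀ q ∈ J, (T q).card ≤ 2 ∧ (q.vars.card ≤ 2 → T q = ∅) ∧ ∀ g, g ∉ T q →
        SignType.sign (eval x q) = SignType.sign (eval (y g) q) := by
  classical
  obtain ⟨G, hG, hfin, ⟨D⟩, h1, h2⟩ := exists_group p R n hR hn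
  have hp0 : 0 < p := (Fact.out : p.Prime).pos
  have hcard : ∀ l, Nat.card (G ⧸ D.E l) * p = Nat.card G := by
    intro l
    have h3 := Subgroup.card_eq_card_quotient_mul_card_subgroup (D.E l)
    rw [D.card_E l] at h3
    exact h3.symm
  set N := Nat.card (G ⧸ D.E 0) with hN
  have hNl : ∀ l, Nat.card (G ⧸ D.E l) = N := by
    intro l
    have h3 : Nat.card (G ⧸ D.E l) * p = N * p := by rw [hcard l, hN, hcard 0]
    exact Nat.eq_of_mul_eq_mul_right hp0 h3
  have hNn : N ≤ n := by
    have h3 : N * p ≤ n * p := by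
      rw [hN, hcard 0]
      exact h1
    exact Nat.le_of_mul_le_mul_right h3 hp0
  let _ : ∀ l, Fintype (G ⧸ D.E l) := fun l => Fintype.ofFinite _
  let _ : Fintype G := Fintype.ofFinite G
  have e0 : ∀ l, Nonempty (Fin n ≃ (G ⧸ D.E l) ⊕ Fin (n - N)) := by
    intro l
    have h3 : Nat.card ((G ⧸ D.E l) ⊕ Fin (n - N)) = n := by
      rw [Nat.card_sum, hNl, Nat.card_eq_fintype_card, Fintype.card_fin]
      omega
    exact ⟨(Finite.equivFinOfCardEq h3).symm⟩
  let e : Pos n ≃ Pt D (Fin (n - N)) := (Equiv.sigmaEquivProd (Fin 3) (Fin n)).symm.trans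
    (Equiv.sigmaCongrRight fun l => Classical.choice (e0 l))
  have he : ∀ v, (e v).1 = v.1 := fun v => rfl
  obtain ⟨ω0, ωp, w1, w2, w3, w4, w5⟩ := exists_perturb D (X := Fin (n - N)) hp0 (by omega) hpR
    Pool.Agent.Helper9.FL.decay
  have hω : Pert ω0 ωp := ⟨w1, w2, w3, w4, w5⟩
  have hvars : ∀ q : MvPolynomial (Pos n) ℝ, (rename e q).vars ⊆ q.vars.image e := fun q =>
    vars_rename e q
  have hvcard : ∀ q : MvPolynomial (Pos n) ℝ, (rename e q).vars.card ≤ q.vars.card := fun q =>
    (Finset.card_le_card (hvars q)).trans Finset.card_image_le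
  obtain ⟨x, y, T, hx, hy, hT⟩ := adversary hω (J.image (rename e)) (by
    intro q hq
    obtain ⟨q', hq', rfl⟩ := Finset.mem_image.1 hq
    refine ⟨(hvcard q').trans (hJ q' hq').1, fun l => ?_⟩
    have h3 := (hJ q' hq').2 l
    refine (Finset.card_le_card (Finset.filter_subset_filter _ (hvars q'))).trans ?_
    rw [Finset.filter_image, Finset.card_image_of_injective _ e.injective]
    exact h3)
  have hsol : ∀ z : Pt D (Fin (n - N)) → ℝ, Solved (z ∘ e) ↔ Solved z := by
    intro z
    constructor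
    · rintro ⟨u, v, w, a1, a2, a3, a4⟩
      exact ⟨e u, e v, e w, fun h => a1 (e.injective h), fun h => a2 (e.injective h),
        fun h => a3 (e.injective h), a4⟩
    · rintro ⟨u, v, w, a1, a2, a3, a4⟩
      refine ⟨e.symm u, e.symm v, e.symm w, fun h => a1 (e.symm.injective h),
        fun h => a2 (e.symm.injective h), fun h => a3 (e.symm.injective h), ?_⟩
      simpa using a4
  refine ⟨G, inferInstance, x ∘ e, fun g => y g ∘ e, fun q => T (rename e q), ?_,
    ⟨hx.1.comp e.injective, fun h => hx.2 ((hsol x).1 h)⟩,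
    fun g => ⟨(hy g).1.comp e.injective, (hsol _).2 (hy g).2⟩, ?_⟩
  · rw [← Nat.card_eq_fintype_card]
    exact h2
  · intro q hq
    obtain ⟨t1, t2, t3⟩ := hT (rename e q) (Finset.mem_image_of_mem _ hq)
    refine ⟨t1, fun h => t2 ((hvcard q).trans h), fun g hg => ?_⟩
    have := t3 g hg
    rwa [eval_rename, eval_rename] at this

/-- A decision tree. -/
inductive Tree (n : ℕ)
  /-- give the answer -/
  | answer (b : Bool)
  /-- test the sign of the polynomial, and go on according to the sign -/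
  | node (q : MvPolynomial (Pos n) ℝ) (next : SignType → Tree n)

namespace Tree

variable {n : ℕ}

/-- The answer. -/
noncomputable def run : Tree n → (Pos n → ℝ) → Bool
  | answer b, _ => b
  | node q next, x => (next (SignType.sign (eval x q))).run x

open Classical in
/-- The number of tests which read at least three numbers. -/
noncomputable def cost : Tree n → (Pos n → ℝ) → ℕ
  | answer _, _ => 0
  | node q next, x =>
    (if 3 ≤ q.vars.card then 1 else 0) + (next (SignType.sign (eval x q))).cost x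

/-- All tests of the tree have a property. -/
def All (P : MvPolynomial (Pos n) ℝ → Prop) : Tree n → Prop
  | answer _ => True
  | node q next => P q ∧ ∀ s, (next s).All P

open Classical in
/-- The polynomials of a tree. -/
noncomputable def polys : Tree n → Finset (MvPolynomial (Pos n) ℝ)
  | answer _ => ∅
  | node q next => {q} ∪ Finset.univ.biUnion fun s => (next s).polys

open Classical in
/-- The touched indices. -/
noncomputable def touched {G : Type} (T : MvPolynomial (Pos n) ℝ → Finset G) :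
    Tree n → (Pos n → ℝ) → Finset G
  | answer _, _ => ∅
  | node q next, x => T q ∪ (next (SignType.sign (eval x q))).touched T x

theorem all_polys (P : MvPolynomial (Pos n) ℝ → Prop) (τ : Tree n) (h : τ.All P) :
    ∀ q ∈ τ.polys, P q := by
  classical
  induction τ with
  | answer b => intro q hq; exact absurd hq (Finset.notMem_empty _)
  | node q next ih =>
    intro q' hq'
    rw [polys, Finset.mem_union, Finset.mem_singleton, Finset.mem_biUnion] at hq'
    rcases hq' with rfl | ⟨s, -, hs⟩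
    · exact h.1
    · exact ih s (h.2 s) q' hs

theorem card_touched {G : Type} (T : MvPolynomial (Pos n) ℝ → Finset G) (x : Pos n → ℝ)
    (τ : Tree n) (hT : ∀ q ∈ τ.polys, (T q).card ≤ 2 ∧ (q.vars.card ≤ 2 → T q = ∅)) :
    (τ.touched T x).card ≤ 2 * τ.cost x := by
  classical
  induction τ with
  | answer b => simp [touched]
  | node q next ih =>
    rw [touched, cost]
    refine (Finset.card_union_le _ _).trans ?_
    have h1 := hT q (by rw [polys]; exact Finset.mem_union_left _ (Finset.mem_singleton_self _))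
    have h2 := ih (SignType.sign (eval x q)) (fun q' hq' => hT q' (by
      rw [polys]
      exact Finset.mem_union_right _ (Finset.mem_biUnion.2 ⟨_, Finset.mem_univ _, hq'⟩)))
    have h3 : (T q).card ≤ 2 * if 3 ≤ q.vars.card then 1 else 0 := by
      split_ifs with h
      · exact h1.1
      · rw [h1.2 (by omega)]
        simp
    rw [mul_add]
    exact add_le_add h3 h2

theorem run_eq {G : Type} (T : MvPolynomial (Pos n) ℝ → Finset G) (x y : Pos n → ℝ) (g : G)
    (τ : Tree n) (hT : ∀ q ∈ τ.polys, g ∉ T q →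
      SignType.sign (eval x q) = SignType.sign (eval y q))
    (h : g ∉ τ.touched T x) : τ.run x = τ.run y := by
  classical
  induction τ with
  | answer b => rfl
  | node q next ih =>
    rw [touched, Finset.mem_union, not_or] at h
    have h1 := hT q (by rw [polys]; exact Finset.mem_union_left _ (Finset.mem_singleton_self _)) h.1
    rw [run, run, ← h1]
    refine ih _ (fun q' hq' => hT q' (by
      rw [polys]
      exact Finset.mem_union_right _ (Finset.mem_biUnion.2 ⟨_, Finset.mem_univ _, hq'⟩))) h.2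

end Tree

open Classical in
/-- The probability of the event `E` for a finite probability space with the weights `w`. -/
noncomputable def pr {Ω : Type} [Fintype Ω] (w : Ω → ℝ) (E : Ω → Prop) : ℝ :=
  ∑ ω, if E ω then w ω else 0

theorem pr_inter {Ω : Type} [Fintype Ω] (w : Ω → ℝ) (hw : ∀ ω, 0 ≤ w ω) (hw1 : ∑ ω, w ω = 1)
    (E F G : Ω → Prop) (h : ∀ ω, E ω → F ω → G ω) : pr w E + pr w F - 1 ≤ pr w G := by
  classical
  unfold pr
  rw [← hw1, ← Finset.sum_add_distrib, ← Finset.sum_sub_distrib]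
  refine Finset.sum_le_sum fun ω _ => ?_
  have := hw ω
  by_cases h1 : E ω <;> by_cases h2 : F ω <;> by_cases h3 : G ω <;> simp [h1, h2, h3, this]
  exact absurd (h ω h1 h2) h3

/-- Certificates. -/
theorem certificate (p : ℕ) [Fact p.Prime] (R n : ℕ) (hR : 2 ≤ R) (hpR : 2 * p ≤ 2 ^ (R - 1))
    (hn : p ^ (512 * (R + 1)) ≤ n) (J : Finset (MvPolynomial (Pos n) ℝ))
    (hJ : ∀ q ∈ J, Four (fun v : Pos n => v.1) q.vars) :
    ∃ x : Pos n → ℝ, (Function.Injective x ∧ ¬ Solved x) ∧
      ∀ I ⊆ J, 4 * (I.filter fun q => 3 ≤ q.vars.card).card < n * p →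
        ∃ y : Pos n → ℝ, Function.Injective y ∧ Solved y ∧
          ∀ q ∈ I, SignType.sign (eval x q) = SignType.sign (eval y q) := by
  classical
  obtain ⟨G, _, x, y, T, hcard, hx, hy, hT⟩ := main p R n hR hpR hn J hJ
  refine ⟨x, hx, fun I hI hlt => ?_⟩
  have h1 : (I.biUnion T).card ≤ 2 * (I.filter fun q => 3 ≤ q.vars.card).card := by
    refine Finset.card_biUnion_le.trans ?_
    calc ∑ q ∈ I, (T q).card ≤ ∑ q ∈ I, if 3 ≤ q.vars.card then 2 else 0 := by
          refine Finset.sum_le_sum fun q hq => ?_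
          obtain ⟨t1, t2, -⟩ := hT q (hI hq)
          split_ifs with h
          · exact t1
          · rw [t2 (by omega)]
            simp
      _ = 2 * (I.filter fun q => 3 ≤ q.vars.card).card := by
          rw [← Finset.sum_filter, Finset.sum_const, smul_eq_mul, mul_comm]
  have h2 : (I.biUnion T).card < (Finset.univ : Finset G).card := by
    rw [Finset.card_univ]
    omega
  obtain ⟨g, -, hg⟩ := Finset.exists_mem_notMem_of_card_lt_card h2
  refine ⟨y g, (hy g).1, (hy g).2, fun q hq => (hT q (hI hq)).2.2 g ?_⟩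
  intro hcon
  exact hg (Finset.mem_biUnion.2 ⟨q, hq, hcon⟩)

/-- Randomized decision trees. -/
theorem algorithms (p : ℕ) [Fact p.Prime] (R n : ℕ) (hR : 2 ≤ R) (hpR : 2 * p ≤ 2 ^ (R - 1))
    (hn : p ^ (512 * (R + 1)) ≤ n) (Ω : Type) [Fintype Ω] (w : Ω → ℝ) (hw : ∀ ω, 0 ≤ w ω)
    (hw1 : ∑ ω, w ω = 1) (δ : ℝ) (τ : Ω → Tree n)
    (hτ : ∀ ω, (τ ω).All fun q => Four (fun v : Pos n => v.1) q.vars)
    (hcorr : ∀ y : Pos n → ℝ, Function.Injective y →
      δ ≤ pr w fun ω => ((τ ω).run y = true ↔ Solved y)) :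
    ∃ x : Pos n → ℝ, (Function.Injective x ∧ ¬ Solved x) ∧
      (2 * δ - 1) * ((n : ℝ) * p / 4) ≤ ∑ ω, w ω * ((τ ω).cost x : ℝ) := by
  classical
  obtain ⟨G, _, x, y, T, hcard, hx, hy, hT⟩ := main p R n hR hpR hn
    (Finset.univ.biUnion fun ω => (τ ω).polys) (by
      intro q hq
      obtain ⟨ω, -, hω⟩ := Finset.mem_biUnion.1 hq
      exact Tree.all_polys _ (τ ω) (hτ ω) q hω)
  have hT' : ∀ ω, ∀ q ∈ (τ ω).polys, (T q).card ≤ 2 ∧ (q.vars.card ≤ 2 → T q = ∅) ∧ ∀ g, g ∉ T q →
      SignType.sign (eval x q) = SignType.sign (eval (y g) q) := fun ω q hq =>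
    hT q (Finset.mem_biUnion.2 ⟨ω, Finset.mem_univ _, hq⟩)
  refine ⟨x, hx, ?_⟩
  have hxc := hcorr x hx.1
  simp only [hx.2, iff_false, Bool.not_eq_true] at hxc
  have h1 : ∀ g : G, (2 * δ - 1 : ℝ) ≤ pr w fun ω => g ∈ (τ ω).touched T x := by
    intro g
    have hyc := hcorr (y g) (hy g).1
    simp only [(hy g).2, iff_true] at hyc
    have := pr_inter w hw hw1 (fun ω => (τ ω).run x = false)
      (fun ω => (τ ω).run (y g) = true) (fun ω => g ∈ (τ ω).touched T x) (by
        intro ω e1 e2
        by_contra hcon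
        have := Tree.run_eq T x (y g) g (τ ω) (fun q hq => (hT' ω q hq).2.2 g) hcon
        rw [e1, e2] at this
        exact absurd this (by decide))
    linarith
  have h2 : (2 * δ - 1) * (Fintype.card G : ℝ) ≤ 2 * ∑ ω, w ω * ((τ ω).cost x : ℝ) := by
    calc (2 * δ - 1) * (Fintype.card G : ℝ) = ∑ g : G, (2 * δ - 1 : ℝ) := by
          rw [Finset.sum_const, nsmul_eq_mul, Finset.card_univ]
          ring
      _ ≤ ∑ g : G, pr w fun ω => g ∈ (τ ω).touched T x := Finset.sum_le_sum fun g _ => h1 g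
      _ = ∑ ω, ∑ g : G, if g ∈ (τ ω).touched T x then w ω else 0 := by
          unfold pr
          rw [Finset.sum_comm]
          refine Finset.sum_congr rfl fun ω _ => Finset.sum_congr rfl fun g _ => ?_
          by_cases hg : g ∈ (τ ω).touched T x <;> simp only [hg, if_true, if_false]
      _ ≤ ∑ ω, 2 * (w ω * ((τ ω).cost x : ℝ)) := by
          refine Finset.sum_le_sum fun ω _ => ?_
          rw [← Finset.sum_filter, Finset.sum_const, nsmul_eq_mul]
          have h3 : (Finset.univ.filter fun g => g ∈ (τ ω).touched T x).card ≤ 2 * (τ ω).cost x := by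
            refine le_trans (Finset.card_le_card ?_) (Tree.card_touched T x (τ ω) fun q hq =>
              ⟨(hT' ω q hq).1, (hT' ω q hq).2.1⟩)
            intro g hg
            exact (Finset.mem_filter.1 hg).2
          have h4 : ((Finset.univ.filter fun g => g ∈ (τ ω).touched T x).card : ℝ) ≤
              2 * ((τ ω).cost x : ℝ) := by exact_mod_cast h3
          have := mul_le_mul_of_nonneg_right h4 (hw ω)
          linarith
      _ = 2 * ∑ ω, w ω * ((τ ω).cost x : ℝ) := by rw [Finset.mul_sum]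
  have hcost : 0 ≤ ∑ ω, w ω * ((τ ω).cost x : ℝ) :=
    Finset.sum_nonneg fun ω _ => mul_nonneg (hw ω) (Nat.cast_nonneg _)
  have hcard' : (n : ℝ) * p ≤ 2 * (Fintype.card G : ℝ) := by exact_mod_cast hcard
  have hnp : (0 : ℝ) ≤ (n : ℝ) * p := by positivity
  by_cases hδ : 0 ≤ 2 * δ - 1
  · nlinarith
  · have : (2 * δ - 1) * ((n : ℝ) * p / 4) ≤ 0 :=
      mul_nonpos_of_nonpos_of_nonneg (by linarith) (by positivity)
    linarith

end Pool.Agent.Helper24.FL
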